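import Pool.Agent.TH463.UQ.Univ

/-!
Small exponential sums at the multiples of a frequency make a piece of an orbit dense.
-/

set_option autoImplicit false

open Finset Filter Topology

namespace Pool.Agent.TH463.US

open Pool.Agent.H769R3 (X fourier_norm)
open Pool.Agent.TH463.UQ (Su del del_pos)

lemma exists_kappa {ε : ℝ} (hε : 0 < ε) :
    ∃ κ : ℝ, 0 < κ ∧ ∀ z : X, ε ≤ ‖z‖ → κ ≤ ‖(fourier 1 z : ℂ) - 1‖ := by
  have hc : IsCompact {z : X | ε ≤ ‖z‖} := (isClosed_le continuous_const continuous_norm).isCompact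
  by_cases hne : {z : X | ε ≤ ‖z‖}.Nonempty
  · have hcont : Continuous fun z : X => ‖(fourier 1 z : ℂ) - 1‖ :=
      ((map_continuous _).sub continuous_const).norm
    obtain ⟨z₀, hz₀, hmin⟩ := hc.exists_isMinOn hne hcont.continuousOn
    refine ⟨‖(fourier 1 z₀ : ℂ) - 1‖, ?_, fun z hz => hmin hz⟩
    rw [norm_pos_iff, sub_ne_zero]
    intro h
    rw [fourier_one] at h
    have h1 : AddCircle.toCircle z₀ = AddCircle.toCircle (0 : X) := by
      rw [AddCircle.toCircle_zero]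
      exact Circle.ext (by rw [h]; simp)
    have h2 := AddCircle.injective_toCircle one_ne_zero h1
    change ε ≤ ‖z₀‖ at hz₀
    rw [h2, norm_zero] at hz₀
    linarith
  · exact ⟨1, one_pos, fun z hz => absurd ⟨z, hz⟩ hne⟩

lemma fourier_pow (n : ℕ) (z : X) : (fourier (n : ℤ) z : ℂ) = (fourier 1 z : ℂ) ^ n := by
  induction n with
  | zero => simp
  | succ n ih => rw [pow_succ, ← ih, ← fourier_add]; push_cast; rfl

lemma fourier_nsmul (d : ℤ) (c : ℕ) (z : X) : (fourier d (c • z) : ℂ) = fourier (d * c) z := by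
  rw [fourier_apply, fourier_apply]
  congr 2
  rw [← natCast_zsmul, smul_smul]

/-- the geometric sum -/
lemma geom {κ : ℝ} (hκ : 0 < κ) {z : X} (h : κ ≤ ‖(fourier 1 z : ℂ) - 1‖) (J : ℕ) :
    ‖∑ n ∈ range J, (fourier (n : ℤ) z : ℂ)‖ ≤ 2 / κ := by
  simp_rw [fourier_pow]
  have h1 := geom_sum_mul (fourier 1 z : ℂ) J
  have h2 : ‖(∑ n ∈ range J, (fourier 1 z : ℂ) ^ n)‖ * ‖(fourier 1 z : ℂ) - 1‖ ≤ 2 := by
    rw [← norm_mul, h1]
    refine (norm_sub_le _ _).trans ?_
    rw [norm_pow, fourier_norm]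
    norm_num
  rw [le_div_iff₀ hκ]
  exact (mul_le_mul_of_nonneg_left h (norm_nonneg _)).trans h2

lemma sq_eq (J : ℕ) (z : X) : ((‖∑ n ∈ range J, (fourier (n : ℤ) z : ℂ)‖ ^ 2 : ℝ) : ℂ) =
    ∑ n ∈ range J, ∑ n' ∈ range J, (fourier ((n : ℤ) - n') z : ℂ) := by
  rw [Complex.ofReal_pow, ← Complex.mul_conj', map_sum, sum_mul_sum]
  apply sum_congr rfl
  intro n _
  apply sum_congr rfl
  intro n' _
  rw [sub_eq_add_neg, fourier_add, fourier_neg]

/-- **Small sums make the orbit dense.** -/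
theorem dens {ε : ℝ} (hε : 0 < ε) : ∃ J m : ℕ, 0 < J ∧ ∀ (p c β : ℕ) (x : X), 1 ≤ β →
    (∀ a < J, ‖Su p ((a + 1) * c) β x‖ ≤ 2 * del m * β) →
    ∀ y : X, ∃ j < β, ‖c • ((p ^ j : ℕ) • x) - y‖ < ε := by
  obtain ⟨κ, hκ, hκ'⟩ := exists_kappa hε
  obtain ⟨J, hJ⟩ := exists_nat_gt (8 / κ ^ 2)
  have hJ0 : (0 : ℝ) < J := lt_of_le_of_lt (by positivity) hJ
  refine ⟨J, 4 * J, by exact_mod_cast hJ0, ?_⟩
  intro p c β x hβ hS y
  have hβ0 : (0 : ℝ) < β := by exact_mod_cast hβ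
  by_contra hcon
  push Not at hcon
  set δ := del (4 * J) with hδ
  have hδ0 : 0 < δ := del_pos _
  have hδ1 : δ * (4 * J) ≤ 1 := by
    rw [hδ]
    unfold del
    push_cast
    rw [one_div, inv_mul_le_iff₀ (by positivity)]
    linarith
  set u : ℕ → X := fun j => c • ((p ^ j : ℕ) • x) - y with hu
  set T : ℤ → ℂ := fun d => ∑ j ∈ range β, (fourier d (u j) : ℂ) with hT
  have hTneg : ∀ d, ‖T (-d)‖ = ‖T d‖ := by
    intro d
    have : T (-d) = (starRingEnd ℂ) (T d) := by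
      rw [hT]
      simp only
      rw [map_sum]
      exact sum_congr rfl fun j _ => fourier_neg
    rw [this, Complex.norm_conj]
  have hTpos : ∀ a < J, ‖T ((a : ℤ) + 1)‖ ≤ 2 * δ * β := by
    intro a ha
    have e : T ((a : ℤ) + 1) = Su p ((a + 1) * c) β x * (fourier ((a : ℤ) + 1) (-y) : ℂ) := by
      rw [hT]
      unfold Su
      simp only
      rw [sum_mul]
      apply sum_congr rfl
      intro j _
      rw [hu]
      simp only
      rw [fourier_apply, smul_sub, sub_eq_add_neg, ← smul_neg, AddCircle.toCircle_add,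
        Circle.coe_mul, ← fourier_apply, ← fourier_apply, fourier_nsmul]
      push_cast
      rfl
    rw [e, norm_mul, fourier_norm, mul_one]
    exact hS a ha
  have hupper : ∑ j ∈ range β, ‖∑ n ∈ range J, (fourier (n : ℤ) (u j) : ℂ)‖ ^ 2 ≤
      β * (4 / κ ^ 2) := by
    have h1 : ∀ j ∈ range β, ‖∑ n ∈ range J, (fourier (n : ℤ) (u j) : ℂ)‖ ^ 2 ≤ 4 / κ ^ 2 := by
      intro j hj
      have h2 := geom hκ (hκ' (u j) (hcon j (mem_range.1 hj))) J
      calc ‖∑ n ∈ range J, (fourier (n : ℤ) (u j) : ℂ)‖ ^ 2 ≤ (2 / κ) ^ 2 :=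
            pow_le_pow_left₀ (norm_nonneg _) h2 2
        _ = _ := by rw [div_pow]; norm_num
    refine (sum_le_sum h1).trans ?_
    rw [sum_const, card_range, nsmul_eq_mul]
  have hsum : ((∑ j ∈ range β, ‖∑ n ∈ range J, (fourier (n : ℤ) (u j) : ℂ)‖ ^ 2 : ℝ) : ℂ) =
      ∑ n ∈ range J, ∑ n' ∈ range J, T ((n : ℤ) - n') := by
    rw [Complex.ofReal_sum]
    simp_rw [sq_eq]
    rw [sum_comm]
    apply sum_congr rfl
    intro n _
    rw [sum_comm]
  have hre : ∑ j ∈ range β, ‖∑ n ∈ range J, (fourier (n : ℤ) (u j) : ℂ)‖ ^ 2 =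
      ∑ n ∈ range J, ∑ n' ∈ range J, (T ((n : ℤ) - n')).re := by
    have := congrArg Complex.re hsum
    rw [Complex.ofReal_re, Complex.re_sum] at this
    rw [this]
    apply sum_congr rfl
    intro n _
    rw [Complex.re_sum]
  have hterm : ∀ n ∈ range J, ∀ n' ∈ range J,
      (if n = n' then (β : ℝ) else 0) - 2 * δ * β ≤ (T ((n : ℤ) - n')).re := by
    intro n hn n' hn'
    rw [mem_range] at hn hn'
    have hpos : 0 ≤ 2 * δ * β := by positivity
    rcases lt_trichotomy n n' with h | h | h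
    · rw [if_neg h.ne]
      have e : (n : ℤ) - n' = -(((n' - n - 1 : ℕ) : ℤ) + 1) := by omega
      have h1 := hTpos (n' - n - 1) (by omega)
      rw [← hTneg, ← e] at h1
      have h2 := Complex.abs_re_le_norm (T ((n : ℤ) - n'))
      have h3 := neg_abs_le (T ((n : ℤ) - n')).re
      linarith
    · rw [if_pos h, h, sub_self]
      have : T 0 = β := by
        rw [hT]
        simp
      rw [this, Complex.natCast_re]
      linarith
    · rw [if_neg h.ne']
      have e : (n : ℤ) - n' = ((n - n' - 1 : ℕ) : ℤ) + 1 := by omega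
      have h1 := hTpos (n - n' - 1) (by omega)
      rw [← e] at h1
      have h2 := Complex.abs_re_le_norm (T ((n : ℤ) - n'))
      have h3 := neg_abs_le (T ((n : ℤ) - n')).re
      linarith
  have hlower : (J : ℝ) * (β - J * (2 * δ * β)) ≤
      ∑ n ∈ range J, ∑ n' ∈ range J, (T ((n : ℤ) - n')).re := by
    refine le_trans (le_of_eq ?_) (sum_le_sum fun n hn => sum_le_sum fun n' hn' => hterm n hn n' hn')
    have h1 : ∀ n ∈ range J, ∑ n' ∈ range J, ((if n = n' then (β : ℝ) else 0) - 2 * δ * β) =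
        β - J * (2 * δ * β) := by
      intro n hn
      rw [sum_sub_distrib, sum_ite_eq, if_pos hn, sum_const, card_range, nsmul_eq_mul]
    rw [sum_congr rfl h1, sum_const, card_range, nsmul_eq_mul]
  rw [← hre] at hlower
  have h1 : (J : ℝ) * (β - J * (2 * δ * β)) ≤ β * (4 / κ ^ 2) := hlower.trans hupper
  have h2 : (J : ℝ) * (2 * δ * β) ≤ β / 2 := by
    have := mul_le_mul_of_nonneg_right hδ1 hβ0.le
    linarith
  have h3 : (J : ℝ) * (β / 2) ≤ β * (4 / κ ^ 2) := by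
    refine le_trans (mul_le_mul_of_nonneg_left ?_ hJ0.le) h1
    linarith
  have h4 : β * (8 / κ ^ 2) < β * J := mul_lt_mul_of_pos_left hJ hβ0
  have h5 : β * (4 / κ ^ 2) = β * (8 / κ ^ 2) / 2 := by ring
  linarith

end Pool.Agent.TH463.US
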