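import Pool.Agent.TH463.US.Tri
import Pool.Agent.H769R3.Shadow

/-!
The limit set of the orbit of a point of infinite order.
-/

set_option autoImplicit false

open Finset Filter Topology

namespace Pool.Agent.TH463.US

open Pool.Agent.H769R3 (X rep coe_rep exists_lift norm_coe_le norm_coe_eq)

/-- the limit set of the orbit under multiplication by `p` -/
def Om (p : ℕ) (x : X) : Set X :=
  {z | ∀ δ : ℝ, 0 < δ → ∀ n₀ : ℕ, ∃ n ≥ n₀, ‖(p ^ n : ℕ) • x - z‖ < δ}

lemma Om_inv {p : ℕ} (hp : 2 ≤ p) (x : X) : ∀ z ∈ Om p x, p • z ∈ Om p x := by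
  intro z hz δ hδ n₀
  have hp0 : (0 : ℝ) < p := by
    have : 0 < p := by omega
    exact_mod_cast this
  obtain ⟨n, hn, h⟩ := hz (δ / p) (by positivity) n₀
  refine ⟨n + 1, by omega, ?_⟩
  rw [pow_succ', mul_smul, ← smul_sub]
  refine lt_of_le_of_lt norm_nsmul_le ?_
  rw [lt_div_iff₀ hp0] at h
  linarith

/-- small vectors are stretched -/
lemma stretch {p : ℕ} (hp : 2 ≤ p) {e : X} (he : ‖e‖ ≤ 1 / (2 * p)) : ‖p • e‖ = p * ‖e‖ := by
  have hp0 : (0 : ℝ) < p := by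
    have : 0 < p := by omega
    exact_mod_cast this
  obtain ⟨ξ, h1, h2⟩ := exists_lift e
  rw [← h2] at he
  rw [← h2, ← h1, ← AddCircle.coe_nsmul, nsmul_eq_mul]
  have h3 : |(p : ℝ) * ξ| = p * |ξ| := by rw [abs_mul, abs_of_pos hp0]
  rw [norm_coe_eq, h3]
  rw [h3]
  calc (p : ℝ) * |ξ| ≤ p * (1 / (2 * p)) := mul_le_mul_of_nonneg_left he hp0.le
    _ = 1 / 2 := by field_simp

/-- the orbit approaches the limit set -/
lemma near_Om {p : ℕ} (x : X) {δ : ℝ} (hδ : 0 < δ) :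
    ∃ n₀ : ℕ, ∀ n ≥ n₀, ∃ z ∈ Om p x, ‖(p ^ n : ℕ) • x - z‖ < δ := by
  by_contra hcon
  push Not at hcon
  -- infinitely many far times
  have hfreq : ∃ᶠ n : ℕ in atTop, ∀ z ∈ Om p x, δ ≤ ‖(p ^ n : ℕ) • x - z‖ := by
    rw [frequently_atTop]
    intro n₀
    obtain ⟨n, hn, h⟩ := hcon n₀
    exact ⟨n, hn, h⟩
  obtain ⟨φ, hφ, hφ2⟩ := extraction_of_frequently_atTop hfreq
  obtain ⟨z, -, ψ, hψ, hlim⟩ := (isCompact_univ (X := X)).tendsto_subseq
    (x := fun k => (p ^ (φ k) : ℕ) • x) (fun _ => Set.mem_univ _)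
  have hz : z ∈ Om p x := by
    intro ε hε n₀
    rw [Metric.tendsto_atTop] at hlim
    obtain ⟨k₀, hk₀⟩ := hlim ε hε
    have h1 := hk₀ (max k₀ n₀) (le_max_left _ _)
    rw [dist_eq_norm] at h1
    refine ⟨φ (ψ (max k₀ n₀)), ?_, h1⟩
    have h2 : max k₀ n₀ ≤ ψ (max k₀ n₀) := hψ.id_le _
    have h3 : ψ (max k₀ n₀) ≤ φ (ψ (max k₀ n₀)) := hφ.id_le _
    have h4 : n₀ ≤ max k₀ n₀ := le_max_right _ _
    omega
  rw [Metric.tendsto_atTop] at hlim
  obtain ⟨k₀, hk₀⟩ := hlim δ hδ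
  have h1 := hk₀ k₀ le_rfl
  rw [dist_eq_norm] at h1
  have h2 := hφ2 (ψ k₀) z hz
  simp only [Function.comp] at h1
  linarith

/-- a separation constant of a finite set -/
lemma exists_sep {K : Set X} (hK : K.Finite) : ∃ s : ℝ, 0 < s ∧ ∀ y ∈ K, ∀ z ∈ K, ‖y - z‖ < s → y = z := by
  classical
  set F : Finset ℝ := insert 1 (((hK.toFinset ×ˢ hK.toFinset).filter fun a => a.1 ≠ a.2).image
    fun a => ‖a.1 - a.2‖) with hF
  have hne : F.Nonempty := ⟨1, mem_insert_self _ _⟩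
  refine ⟨F.min' hne, ?_, ?_⟩
  · rw [Finset.lt_min'_iff]
    intro r hr
    rw [hF, mem_insert, mem_image] at hr
    rcases hr with rfl | ⟨a, ha, rfl⟩
    · exact one_pos
    · rw [norm_pos_iff, sub_ne_zero]
      exact (mem_filter.1 ha).2
  · intro y hy z hz h
    by_contra hne2
    have h1 : ‖y - z‖ ∈ F := by
      rw [hF, mem_insert, mem_image]
      right
      refine ⟨(y, z), ?_, rfl⟩
      rw [mem_filter, mem_product]
      exact ⟨⟨by simpa using hy, by simpa using hz⟩, hne2⟩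
    have h2 := F.min'_le _ h1
    linarith

/-- **The limit set of a point of infinite order is infinite.** -/
theorem Om_infinite {p : ℕ} (hp : 2 ≤ p) {x : X} (hx : ∀ q : ℕ, 0 < q → q • x ≠ 0) :
    (Om p x).Infinite := by
  intro hfin
  have hp0 : (0 : ℝ) < p := by
    have : 0 < p := by omega
    exact_mod_cast this
  have hp1 : (1 : ℝ) < p := by
    have : 1 < p := by omega
    exact_mod_cast this
  obtain ⟨s, hs, hsep⟩ := exists_sep hfin
  set δ := min (s / (2 * (p + 1))) (1 / (2 * p)) with hδ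
  have hδ0 : 0 < δ := lt_min (by positivity) (by positivity)
  have hδ1 : (p + 1) * δ ≤ s / 2 := by
    have h1 : δ ≤ s / (2 * (p + 1)) := min_le_left _ _
    calc (p + 1) * δ ≤ (p + 1) * (s / (2 * (p + 1))) := mul_le_mul_of_nonneg_left h1 (by positivity)
      _ = s / 2 := by field_simp
  have hδ2 : δ ≤ 1 / (2 * p) := min_le_right _ _
  obtain ⟨n₀, hn₀⟩ := near_Om (p := p) x hδ0
  choose! z hz hzn using hn₀
  have hstep : ∀ n ≥ n₀, z (n + 1) = p • z n := by
    intro n hn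
    apply hsep _ (hz (n + 1) (by omega)) _ (Om_inv hp x _ (hz n hn))
    have h1 : ‖p • ((p ^ n : ℕ) • x - z n)‖ ≤ p * δ :=
      norm_nsmul_le.trans (mul_le_mul_of_nonneg_left (hzn n hn).le hp0.le)
    have h2 := hzn (n + 1) (by omega)
    have e : z (n + 1) - p • z n = p • ((p ^ n : ℕ) • x - z n) - ((p ^ (n + 1) : ℕ) • x - z (n + 1)) := by
      rw [smul_sub, pow_succ', mul_smul]
      abel
    rw [e]
    refine lt_of_le_of_lt (norm_sub_le _ _) ?_
    have h3 : (p : ℝ) * δ + δ ≤ s / 2 := by linarith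
    linarith
  have herr : ∀ k : ℕ, ‖(p ^ (n₀ + k) : ℕ) • x - z (n₀ + k)‖ = p ^ k * ‖(p ^ n₀ : ℕ) • x - z n₀‖ := by
    intro k
    induction k with
    | zero => simp
    | succ k ih =>
      have h1 := hstep (n₀ + k) (by omega)
      have e : (p ^ (n₀ + (k + 1)) : ℕ) • x - z (n₀ + (k + 1)) =
          p • ((p ^ (n₀ + k) : ℕ) • x - z (n₀ + k)) := by
        rw [smul_sub, ← add_assoc, h1, pow_succ', mul_smul]
      rw [e, stretch hp ((hzn (n₀ + k) (by omega)).le.trans hδ2), ih, pow_succ]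
      ring
  have hzero : ‖(p ^ n₀ : ℕ) • x - z n₀‖ = 0 := by
    by_contra hne
    have hpos : 0 < ‖(p ^ n₀ : ℕ) • x - z n₀‖ := lt_of_le_of_ne (norm_nonneg _) (Ne.symm hne)
    obtain ⟨k, hk⟩ := pow_unbounded_of_one_lt (δ / ‖(p ^ n₀ : ℕ) • x - z n₀‖) hp1
    rw [div_lt_iff₀ hpos, ← herr k] at hk
    have := hzn (n₀ + k) (by omega)
    linarith
  have hmem : ∀ k : ℕ, (p ^ (n₀ + k) : ℕ) • x ∈ Om p x := by
    intro k
    have h1 := herr k
    rw [hzero, mul_zero, norm_eq_zero, sub_eq_zero] at h1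
    rw [h1]
    exact hz _ (by omega)
  -- two equal terms
  have hninj : ¬ Function.Injective fun k : ℕ => (p ^ (n₀ + k) : ℕ) • x := by
    intro hinj
    exact (Set.infinite_range_of_injective hinj) (hfin.subset (by rintro _ ⟨k, rfl⟩; exact hmem k))
  rw [Function.not_injective_iff] at hninj
  obtain ⟨k, l, hkl, hne⟩ := hninj
  wlog hlt : k < l generalizing k l with H
  · exact H l k hkl.symm (Ne.symm hne) (by omega)
  have h1 : p ^ (n₀ + k) < p ^ (n₀ + l) := Nat.pow_lt_pow_right (by omega) (by omega)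
  apply hx (p ^ (n₀ + l) - p ^ (n₀ + k)) (by omega)
  have h2 : (p ^ (n₀ + l) - p ^ (n₀ + k) + p ^ (n₀ + k)) • x = (p ^ (n₀ + k)) • x := by
    rw [Nat.sub_add_cancel h1.le]
    exact hkl.symm
  rw [add_smul] at h2
  exact add_eq_right.1 h2

end Pool.Agent.TH463.US
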