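import Pool.Agent.TH463.US.Main
import Pool.Agent.TH463.US.Omega

/-!
The digits of the multiples of an irrational number.
-/

set_option autoImplicit false

open Finset Filter Topology

namespace Pool.Agent.TH463.US

open Pool.Agent.H769R3 (X rep coe_rep exists_lift norm_coe_le norm_coe_eq)

lemma coe_ne_zero {α : ℝ} (hα : Irrational α) : ∀ q : ℕ, 0 < q → q • (α : X) ≠ 0 := by
  intro q hq h
  rw [← AddCircle.coe_nsmul, AddCircle.coe_eq_zero_iff] at h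
  obtain ⟨k, hk⟩ := h
  rw [zsmul_eq_mul, mul_one, nsmul_eq_mul] at hk
  apply hα
  refine ⟨(k : ℚ) / (q : ℚ), ?_⟩
  have hq0 : (q : ℝ) ≠ 0 := by exact_mod_cast hq.ne'
  push_cast
  rw [hk]
  field_simp

/-- a number near the middle of a cylinder -/
lemma floor_eq {B w : ℕ} (hB : 0 < B) (hw : w < B) {t : ℝ}
    (h : ‖((t : ℝ) : X) - ((((w : ℝ) + 1 / 2) / B : ℝ) : X)‖ < 1 / (2 * B)) :
    ⌊(B : ℝ) * Int.fract t⌋ = w := by
  have hB0 : (0 : ℝ) < B := by exact_mod_cast hB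
  have hw1 : (w : ℝ) + 1 ≤ B := by exact_mod_cast hw
  have hw0 : (0 : ℝ) ≤ w := Nat.cast_nonneg w
  obtain ⟨ξ, h1, h2⟩ := exists_lift (((t : ℝ) : X) - ((((w : ℝ) + 1 / 2) / B : ℝ) : X))
  rw [← h2] at h
  have h3 : (((t - (w + 1 / 2) / B) - ξ : ℝ) : X) = 0 := by
    rw [AddCircle.coe_sub, AddCircle.coe_sub, h1, sub_self]
  rw [AddCircle.coe_eq_zero_iff] at h3
  obtain ⟨k, hk⟩ := h3
  rw [zsmul_eq_mul, mul_one] at hk
  have ht : t = ((w + 1 / 2) / B + ξ) + k := by linarith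
  rw [abs_lt] at h
  have hBξ1 : -(1 / 2) < (B : ℝ) * ξ := by
    have := mul_lt_mul_of_pos_left h.1 hB0
    have e : (B : ℝ) * -(1 / (2 * B)) = -(1 / 2) := by field_simp
    linarith
  have hBξ2 : (B : ℝ) * ξ < 1 / 2 := by
    have := mul_lt_mul_of_pos_left h.2 hB0
    have e : (B : ℝ) * (1 / (2 * B)) = 1 / 2 := by field_simp
    linarith
  have e0 : (B : ℝ) * ((w + 1 / 2) / B + ξ) = w + 1 / 2 + B * ξ := by field_simp
  have hf : Int.fract t = (w + 1 / 2) / B + ξ := by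
    rw [ht, Int.fract_add_intCast, Int.fract_eq_self]
    constructor
    · by_contra hcon
      push Not at hcon
      have := mul_neg_of_pos_of_neg hB0 hcon
      rw [e0] at this
      linarith
    · by_contra hcon
      push Not at hcon
      have := mul_le_mul_of_nonneg_left hcon hB0.le
      rw [e0] at this
      linarith
  rw [hf, Int.floor_eq_iff, e0]
  push_cast
  constructor <;> linarith

/-- **Digits of multiples.** -/
theorem digits {C : Set ℕ} (hC : Univl C) {p : ℕ} (hp : 2 ≤ p) {α : ℝ} (hα : Irrational α)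
    (L w : ℕ) (hw : w < p ^ L) : ∃ c₀ : ℕ, ∀ c ∈ C, c₀ ≤ c →
      {n : ℕ | ⌊(p : ℝ) ^ L * Int.fract ((p : ℝ) ^ n * (c * α))⌋ = w}.Infinite := by
  have hp0 : (0 : ℝ) < p := by
    have : 0 < p := by omega
    exact_mod_cast this
  have hB : 0 < p ^ L := by positivity
  have hBR : (0 : ℝ) < ((p ^ L : ℕ) : ℝ) := by exact_mod_cast hB
  obtain ⟨M, hM⟩ := hC (1 / (4 * ((p ^ L : ℕ) : ℝ))) (by positivity)
  obtain ⟨c₀, hc₀⟩ := hM p hp (Om p (α : X)) (Om_infinite hp (coe_ne_zero hα)) (Om_inv hp _)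
  refine ⟨c₀, fun c hc hcc => ?_⟩
  obtain ⟨z, hz, hzy⟩ := hc₀ c hc hcc
  obtain ⟨j, -, hj⟩ := hzy ((((w : ℝ) + 1 / 2) / ((p ^ L : ℕ) : ℝ) : ℝ) : X)
  have hzj : (p ^ j : ℕ) • z ∈ Om p (α : X) := by
    clear hj
    induction j with
    | zero => rw [pow_zero, one_smul]; exact hz
    | succ j ih => rw [pow_succ', mul_smul]; exact Om_inv hp _ _ ih
  rw [Set.infinite_iff_exists_gt] 
  intro n₀
  obtain ⟨n, hn, hnz⟩ := hzj (1 / (4 * ((p ^ L : ℕ) : ℝ)) / (c + 1)) (by positivity) (n₀ + 1)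
  refine ⟨n, ?_, by omega⟩
  have h1 : ‖c • ((p ^ n : ℕ) • (α : X)) - c • ((p ^ j : ℕ) • z)‖ < 1 / (4 * ((p ^ L : ℕ) : ℝ)) := by
    rw [← smul_sub]
    refine lt_of_le_of_lt norm_nsmul_le ?_
    rw [lt_div_iff₀ (by positivity)] at hnz
    have h2 : 0 ≤ ‖(p ^ n : ℕ) • (α : X) - (p ^ j : ℕ) • z‖ := norm_nonneg _
    rcases h2.eq_or_lt with h3 | h3
    · rw [← h3, mul_zero]
      positivity
    · linarith
  have h2 : ‖c • ((p ^ n : ℕ) • (α : X)) - ((((w : ℝ) + 1 / 2) / ((p ^ L : ℕ) : ℝ) : ℝ) : X)‖ <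
      1 / (2 * ((p ^ L : ℕ) : ℝ)) := by
    have e : c • ((p ^ n : ℕ) • (α : X)) - ((((w : ℝ) + 1 / 2) / ((p ^ L : ℕ) : ℝ) : ℝ) : X) =
        (c • ((p ^ n : ℕ) • (α : X)) - c • ((p ^ j : ℕ) • z)) +
        (c • ((p ^ j : ℕ) • z) - ((((w : ℝ) + 1 / 2) / ((p ^ L : ℕ) : ℝ) : ℝ) : X)) := by abel
    rw [e]
    refine lt_of_le_of_lt (norm_add_le _ _) ?_
    have e2 : 1 / (2 * ((p ^ L : ℕ) : ℝ)) = 1 / (4 * ((p ^ L : ℕ) : ℝ)) + 1 / (4 * ((p ^ L : ℕ) : ℝ)) := by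
      field_simp
      norm_num
    rw [e2]
    exact add_lt_add h1 hj
  have e3 : c • ((p ^ n : ℕ) • (α : X)) = (((p : ℝ) ^ n * (c * α) : ℝ) : X) := by
    rw [← AddCircle.coe_nsmul, ← AddCircle.coe_nsmul, nsmul_eq_mul, nsmul_eq_mul]
    congr 1
    push_cast
    ring
  rw [e3] at h2
  have h3 := floor_eq hB hw h2
  push_cast at h3
  exact h3

end Pool.Agent.TH463.US
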