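import Pool.Agent.TH463.US.Grow
import Pool.Agent.TH463.UP.Cover

/-!
A compact invariant set of Hausdorff dimension zero has few words.
-/

set_option autoImplicit false

open Finset Filter Topology MeasureTheory
open scoped ENNReal

namespace Pool.Agent.TH463.US

open Pool.Agent.H769R3 (X rep)
open Pool.Agent.TH463.UP (D D_lt cnt cnt_mono Un Fam mem_Fam count bad level of_balls)

/-- light finite coverings by cylinders -/
theorem cov_compact {p : ℕ} (hp : 2 ≤ p) {E : Set X} (hc : IsCompact E) (hE : dimH E = 0)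
    {θ : ℝ} (hθ0 : 0 < θ) (hθ1 : θ < 1) : ∃ C : Finset (ℕ × ℕ),
    (∀ c ∈ C, 1 ≤ c.1 ∧ c.2 < p ^ c.1) ∧ ∑ c ∈ C, θ ^ c.1 ≤ 1 / 2 ∧ E ⊆ Un p C := by
  classical
  have hpR : (2 : ℝ) ≤ p := by exact_mod_cast hp
  have hp0 : (0 : ℝ) < p := by linarith
  have hp1 : (1 : ℝ) / p < 1 := by
    rw [div_lt_one hp0]; linarith
  have hp2 : (0 : ℝ) < 1 / p := by positivity
  -- the exponent
  obtain ⟨κ, hκ, hθκ⟩ : ∃ κ : ℝ, 0 < κ ∧ θ = (1 / (p : ℝ)) ^ κ := by
    refine ⟨Real.logb (1 / p) θ, ?_, ?_⟩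
    · exact Real.logb_pos_of_base_lt_one hp2 hp1 hθ0 hθ1
    · rw [Real.rpow_logb hp2 hp1.ne hθ0]
  have hpκ : (p : ℝ) ^ κ = 1 / θ := by
    rw [hθκ, one_div, one_div, Real.inv_rpow hp0.le, inv_inv]
  have hH : (μH[κ] : Measure X) E = 0 := by
    have h1 := hausdorffMeasure_of_dimH_lt (s := E) (d := ⟨κ, hκ.le⟩) (by
      rw [hE]
      exact ENNReal.coe_pos.2 (show (0 : NNReal) < ⟨κ, hκ.le⟩ from hκ))
    exact h1
  -- the covering
  obtain ⟨t, ht1, ht2, ht3⟩ : ∃ t : ℕ → Set X, E ⊆ ⋃ n, t n ∧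
      (∀ n, Metric.ediam (t n) ≤ ENNReal.ofReal (1 / (2 * p) / p)) ∧
      ∑' n, (⨆ _ : (t n).Nonempty, Metric.ediam (t n) ^ κ) < ENNReal.ofReal (θ ^ 2 / 16) := by
    rw [Measure.hausdorffMeasure_apply] at hH
    have h1 : (⨅ (t : ℕ → Set X) (_ : E ⊆ ⋃ n, t n)
        (_ : ∀ n, Metric.ediam (t n) ≤ ENNReal.ofReal (1 / (2 * p) / p)),
          ∑' n, ⨆ _ : (t n).Nonempty, Metric.ediam (t n) ^ κ) < ENNReal.ofReal (θ ^ 2 / 16) := by
      refine lt_of_le_of_lt ?_ (ENNReal.ofReal_pos.2 (by positivity : (0 : ℝ) < θ ^ 2 / 16))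
      rw [← hH]
      exact le_iSup₂ (f := fun (r : ℝ≥0∞) (_ : 0 < r) => ⨅ (t : ℕ → Set X) (_ : E ⊆ ⋃ n, t n)
        (_ : ∀ n, Metric.ediam (t n) ≤ r), ∑' n, ⨆ _ : (t n).Nonempty, Metric.ediam (t n) ^ κ)
        (ENNReal.ofReal (1 / (2 * p) / p)) (ENNReal.ofReal_pos.2 (by positivity))
    simp only [iInf_lt_iff] at h1
    obtain ⟨t, ht1, ht2, ht3⟩ := h1
    exact ⟨t, ht1, ht2, ht3⟩
  -- the balls
  have hball : ∀ n, ∃ b : X × ℕ, t n ⊆ Metric.ball b.1 (1 / (p : ℝ) ^ b.2) ∧ 1 ≤ b.2 ∧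
      ENNReal.ofReal (θ ^ b.2) ≤ ENNReal.ofReal (1 / θ ^ 2) *
        (⨆ _ : (t n).Nonempty, Metric.ediam (t n) ^ κ) +
          ENNReal.ofReal (1 / 16) * ENNReal.ofReal ((1 / 2) ^ (n + 1)) := by
    intro n
    have hfin : Metric.ediam (t n) ≠ ⊤ := ((ht2 n).trans_lt ENNReal.ofReal_lt_top).ne
    set d : ℝ := (Metric.ediam (t n)).toReal with hd
    have hd0 : 0 ≤ d := ENNReal.toReal_nonneg
    have hd1 : d ≤ 1 / (2 * p) / p := by
      have := ENNReal.toReal_mono ENNReal.ofReal_ne_top (ht2 n)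
      rwa [ENNReal.toReal_ofReal (by positivity)] at this
    have hpd1 : (p : ℝ) * d ≤ 1 / (2 * p) := by
      rw [le_div_iff₀ hp0] at hd1
      linarith
    have hpd0 : 0 ≤ (p : ℝ) * d := by positivity
    obtain ⟨N, hN1, hN2, hN3⟩ := level hp hκ hθκ hpd0 hpd1
        (by positivity : (0 : ℝ) < 1 / 16 * (1 / 2) ^ (n + 1))
    have hmul : (1 / θ) * ((p : ℝ) * d) ^ κ = 1 / θ ^ 2 * d ^ κ := by
      rw [Real.mul_rpow hp0.le hd0, hpκ]
      field_simp
    rw [hmul] at hN3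
    rcases Set.eq_empty_or_nonempty (t n) with h0 | h0
    · refine ⟨(0, N), by rw [h0]; exact Set.empty_subset _, hN1, ?_⟩
      have hd00 : d = 0 := by rw [hd, h0]; simp
      rw [hd00, Real.zero_rpow hκ.ne', mul_zero, zero_add] at hN3
      refine (ENNReal.ofReal_le_ofReal hN3).trans ?_
      rw [ENNReal.ofReal_mul (by norm_num)]
      exact le_add_self
    · obtain ⟨x0, hx0⟩ := h0
      refine ⟨(x0, N), ?_, hN1, ?_⟩
      · intro x hx
        rw [Metric.mem_ball]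
        have h1 : edist x x0 ≤ Metric.ediam (t n) := Metric.edist_le_ediam_of_mem hx hx0
        have h2 : dist x x0 ≤ d := by
          rw [dist_edist]
          exact ENNReal.toReal_mono hfin h1
        have hpos : (0 : ℝ) < 1 / (p : ℝ) ^ N := by positivity
        rcases hd0.eq_or_lt with h3 | h3
        · rw [← h3] at h2
          exact lt_of_le_of_lt h2 hpos
        · have h4 : d < p * d := by nlinarith
          exact (h2.trans_lt h4).trans_le hN2
      · refine (ENNReal.ofReal_le_ofReal hN3).trans ?_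
        rw [ENNReal.ofReal_add (by positivity) (by positivity), ENNReal.ofReal_mul (by positivity),
          ENNReal.ofReal_mul (by norm_num)]
        refine add_le_add (mul_le_mul_right ?_ _) le_rfl
        rw [iSup_pos ⟨x0, hx0⟩, ← ENNReal.ofReal_rpow_of_nonneg hd0 hκ.le, hd, ENNReal.ofReal_toReal hfin]
  choose b hb1 hb2 hb3 using hball
  have hsum : ∑' n, ENNReal.ofReal (θ ^ (b n).2) ≤ ENNReal.ofReal (1 / 8) := by
    refine (ENNReal.tsum_le_tsum hb3).trans ?_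
    rw [ENNReal.tsum_add, ENNReal.tsum_mul_left, ENNReal.tsum_mul_left]
    have h1 : ENNReal.ofReal (1 / θ ^ 2) * ∑' n, (⨆ _ : (t n).Nonempty, Metric.ediam (t n) ^ κ) ≤
        ENNReal.ofReal (1 / 16) := by
      refine (mul_le_mul_right ht3.le _).trans (le_of_eq ?_)
      rw [← ENNReal.ofReal_mul (by positivity)]
      congr 1
      field_simp
    have h2 : ∑' n : ℕ, ENNReal.ofReal ((1 / 2 : ℝ) ^ (n + 1)) = 1 := by
      have e : ∀ n : ℕ, ENNReal.ofReal ((1 / 2 : ℝ) ^ (n + 1)) = (2⁻¹ : ℝ≥0∞) ^ (n + 1) := by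
        intro n
        rw [ENNReal.ofReal_pow (by norm_num)]
        congr 1
        rw [one_div, ENNReal.ofReal_inv_of_pos (by norm_num)]
        simp
      simp_rw [e]
      rw [ENNReal.tsum_geometric_add_one, ENNReal.one_sub_inv_two, inv_inv]
      exact ENNReal.inv_mul_cancel (by norm_num) (by norm_num)
    rw [h2, mul_one]
    refine (add_le_add h1 le_rfl).trans (le_of_eq ?_)
    rw [← ENNReal.ofReal_add (by norm_num) (by norm_num)]
    norm_num
  have hfin : ∀ s : Finset ℕ, ∑ n ∈ s, θ ^ (b n).2 ≤ 1 / 8 := by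
    intro s
    have h1 : ENNReal.ofReal (∑ n ∈ s, θ ^ (b n).2) ≤ ENNReal.ofReal (1 / 8) := by
      rw [ENNReal.ofReal_sum_of_nonneg (fun n _ => by positivity)]
      exact (ENNReal.sum_le_tsum _).trans hsum
    exact (ENNReal.ofReal_le_ofReal_iff (by norm_num)).1 h1
  -- a finite subcover
  obtain ⟨s, hs⟩ := hc.elim_finite_subcover (fun n => Metric.ball (b n).1 (1 / (p : ℝ) ^ (b n).2))
    (fun n => Metric.isOpen_ball) (ht1.trans (Set.iUnion_mono hb1))
  obtain ⟨C, hC1, hC2, hC3⟩ := of_balls hp hθ0 (s.image b) (by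
    intro c hc
    obtain ⟨n, -, rfl⟩ := mem_image.1 hc
    exact hb2 n) ((sum_image_le_of_nonneg fun c _ => by positivity).trans (hfin s))
  refine ⟨C, hC1, hC2, fun x hx => hC3 ?_⟩
  obtain ⟨n, hn, hxn⟩ := Set.mem_iUnion₂.1 (hs hx)
  simp only [Set.mem_iUnion]
  exact ⟨b n, mem_image_of_mem b hn, Metric.ball_subset_closedBall hxn⟩

/-- **Dimension zero implies growth rate zero.** -/
theorem gr_zero {p : ℕ} (hp : 2 ≤ p) {K : Set X} (hne : K.Nonempty) (hc : IsCompact K)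
    (hinv : ∀ x ∈ K, p • x ∈ K) (hdim : dimH K = 0) : gr p K = 0 := by
  classical
  refine le_antisymm ?_ (gr_nonneg hp hne)
  by_contra hcon
  push Not at hcon
  set g := gr p K with hg
  set θ := Real.exp (-(g / 2)) with hθ
  have hθ0 : 0 < θ := Real.exp_pos _
  have hθ1 : θ < 1 := Real.exp_lt_one_iff.2 (by linarith)
  obtain ⟨C, hC1, hC2, hC3⟩ := cov_compact hp hc hdim hθ0 hθ1
  have hFam : C ∈ Fam p θ (C.sup fun c => c.1) := by
    rw [mem_Fam]
    refine ⟨fun c hc => ?_, hC2⟩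
    have h1 : c.1 ≤ C.sup fun c => c.1 := le_sup (f := fun c : ℕ × ℕ => c.1) hc
    exact ⟨h1, (hC1 c hc).2.trans_le (Nat.pow_le_pow_right (by omega) h1), (hC1 c hc).1⟩
  set L := C.sup fun c => c.1 with hL
  have hbad : ∀ R, K ⊆ {x | bad p (Un p C) R x ≤ 0} := by
    intro R x hx
    change bad p (Un p C) R x ≤ 0
    unfold bad
    rw [Nat.le_zero, card_eq_zero, filter_eq_empty_iff]
    intro j _
    rw [not_not]
    exact hC3 (pow_mem hinv j x hx)
  have hgrow : ∀ R : ℕ, Real.exp (g / 2 * R) ≤ (p : ℝ) ^ L := by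
    intro R
    have h1 := count hp hθ0 hθ1 hFam R 0
    rw [pow_zero, mul_one] at h1
    have h2 : (cnt p R K : ℝ) ≤ cnt p R {x | bad p (Un p C) R x ≤ 0} := by
      exact_mod_cast cnt_mono R (hbad R)
    have h3 : Real.exp (g * R) ≤ cnt p R K := by
      have h4 : (0 : ℝ) < cnt p R K := by exact_mod_cast cnt_pos hp hne R
      rw [← Real.exp_log h4]
      exact Real.exp_le_exp.2 (gr_le hp hne R)
    have h5 : Real.exp (g * R) * θ ^ R ≤ (p : ℝ) ^ L :=
      (mul_le_mul_of_nonneg_right (h3.trans h2) (by positivity)).trans h1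
    refine le_trans (le_of_eq ?_) h5
    rw [hθ, ← Real.exp_nat_mul, ← Real.exp_add]
    congr 1
    ring
  have ht : Tendsto (fun R : ℕ => Real.exp (g / 2 * R)) atTop atTop :=
    Real.tendsto_exp_atTop.comp (tendsto_natCast_atTop_atTop.const_mul_atTop (by positivity))
  obtain ⟨R, hR⟩ := (ht.eventually_gt_atTop ((p : ℝ) ^ L)).exists
  linarith [hgrow R]

end Pool.Agent.TH463.US
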