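import Pool.Agent.TH463.US.MH

/-!
The growth of the number of words of an invariant set, and the existence of a point which is not
bad.
-/

set_option autoImplicit false

open Finset Filter Topology

namespace Pool.Agent.TH463.US

open Pool.Agent.H769R3 (X)
open Pool.Agent.TH463.UP (D D_lt D_add cnt cnt_mono cnt_mul cnt_le_pow Near Tor Un Fam mem_Fam count bad)
open Pool.Agent.TH463.UQ (BW BW_empty geom_tail)

lemma cnt_pos {p : ℕ} (hp : 2 ≤ p) {K : Set X} (hK : K.Nonempty) (R : ℕ) : 1 ≤ cnt p R K := by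
  obtain ⟨x, hx⟩ := hK
  rw [← card_wd]
  exact card_pos.2 ⟨_, mem_wd hp R hx⟩

/-- the growth rate -/
noncomputable def gr (p : ℕ) (K : Set X) : ℝ := ⨅ n : ℕ, Real.log (cnt p (n + 1) K) / ((n : ℝ) + 1)

section

variable {p : ℕ} {K : Set X}

lemma gr_bdd (hp : 2 ≤ p) (hK : K.Nonempty) :
    BddBelow (Set.range fun n : ℕ => Real.log (cnt p (n + 1) K) / ((n : ℝ) + 1)) := by
  refine ⟨0, ?_⟩
  rintro _ ⟨n, rfl⟩
  have h1 : (1 : ℝ) ≤ cnt p (n + 1) K := by exact_mod_cast cnt_pos hp hK (n + 1)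
  have := Real.log_nonneg h1
  simp only
  positivity

lemma gr_le (hp : 2 ≤ p) (hK : K.Nonempty) (L : ℕ) : gr p K * L ≤ Real.log (cnt p L K) := by
  rcases Nat.eq_zero_or_pos L with h0 | h0
  · rw [h0, Nat.cast_zero, mul_zero]
    exact Real.log_nonneg (by exact_mod_cast cnt_pos hp hK 0)
  obtain ⟨n, rfl⟩ : ∃ n, L = n + 1 := ⟨L - 1, by omega⟩
  have h1 : gr p K ≤ Real.log (cnt p (n + 1) K) / ((n : ℝ) + 1) := ciInf_le (gr_bdd hp hK) n
  rw [le_div_iff₀ (by positivity)] at h1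
  push_cast
  exact h1

lemma exists_gr (hp : 2 ≤ p) (hK : K.Nonempty) {ε : ℝ} (hε : 0 < ε) :
    ∃ k : ℕ, 1 ≤ k ∧ Real.log (cnt p k K) ≤ (gr p K + ε) * k := by
  obtain ⟨n, hn⟩ := exists_lt_of_ciInf_lt (show gr p K < gr p K + ε by linarith)
  refine ⟨n + 1, Nat.succ_pos n, ?_⟩
  rw [div_lt_iff₀ (by positivity)] at hn
  push_cast
  exact hn.le

end

lemma sum_biUnion_le {ι α : Type} [DecidableEq α] (s : Finset ι) (t : ι → Finset α) (f : α → ℝ)
    (hf : ∀ x, 0 ≤ f x) : ∑ x ∈ s.biUnion t, f x ≤ ∑ i ∈ s, ∑ x ∈ t i, f x := by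
  classical
  induction s using Finset.induction_on with
  | empty => simp
  | insert i s hi ih =>
    rw [biUnion_insert, sum_insert hi]
    have h1 := sum_union_inter (s₁ := t i) (s₂ := s.biUnion t) (f := f)
    have h0 : 0 ≤ ∑ x ∈ t i ∩ s.biUnion t, f x := sum_nonneg fun _ _ => hf _
    linarith

/-- the bound for the bad words at the level `β` -/
lemma nb_le {p k : ℕ} (hk : 1 ≤ k) {A : Finset ℕ} (hA : A.Nonempty) {g δ : ℝ} (hg : 0 ≤ g)
    (hlog : Real.log A.card ≤ (g + δ ^ 2 / 128) * k) {β₀ N h : ℕ} (hh : h ∉ Ex p k A δ β₀ N) {β : ℕ}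
    (hβ : β₀ ≤ β) : (nb p k A δ β N h : ℝ) * Real.exp (-(g - δ ^ 2 / 128)) ^ (2 * β + 2) ≤
      (p : ℝ) ^ k * Real.exp (δ ^ 2 / 32) * Real.exp (-(δ ^ 2 / 32)) ^ β := by
  have h1 := not_mem_Ex hh hβ
  have hc0 : (0 : ℝ) < A.card := by exact_mod_cast hA.card_pos
  have h2 : (A.card : ℝ) ^ ((2 * β + 2) / k) ≤ Real.exp ((g + δ ^ 2 / 128) * ((2 * β + 2 : ℕ) : ℝ)) := by
    rw [← Real.exp_log hc0, ← Real.exp_nat_mul]
    apply Real.exp_le_exp.2
    have h3 : ((((2 * β + 2) / k * k : ℕ) : ℕ) : ℝ) ≤ ((2 * β + 2 : ℕ) : ℝ) := by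
      exact_mod_cast Nat.div_mul_le_self _ _
    have h4 : (0 : ℝ) ≤ (((2 * β + 2) / k : ℕ) : ℝ) := Nat.cast_nonneg _
    calc (((2 * β + 2) / k : ℕ) : ℝ) * Real.log A.card ≤
          (((2 * β + 2) / k : ℕ) : ℝ) * ((g + δ ^ 2 / 128) * k) := mul_le_mul_of_nonneg_left hlog h4
      _ = (g + δ ^ 2 / 128) * ((((2 * β + 2) / k * k : ℕ) : ℕ) : ℝ) := by push_cast; ring
      _ ≤ _ := mul_le_mul_of_nonneg_left h3 (by positivity)
  have h3 : (nb p k A δ β N h : ℝ) ≤ Real.exp (-(δ ^ 2 / 16) * β) *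
      (Real.exp ((g + δ ^ 2 / 128) * ((2 * β + 2 : ℕ) : ℝ)) * (p : ℝ) ^ k) := by
    refine h1.trans (mul_le_mul_of_nonneg_left ?_ (Real.exp_pos _).le)
    unfold MM
    push_cast at h2 ⊢
    exact mul_le_mul_of_nonneg_right h2 (by positivity)
  refine (mul_le_mul_of_nonneg_right h3 (by positivity)).trans (le_of_eq ?_)
  have e1 : Real.exp (-(δ ^ 2 / 16) * β) * Real.exp ((g + δ ^ 2 / 128) * ((2 * β + 2 : ℕ) : ℝ)) *
      Real.exp (-(g - δ ^ 2 / 128)) ^ (2 * β + 2) =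
      Real.exp (δ ^ 2 / 32) * Real.exp (-(δ ^ 2 / 32)) ^ β := by
    rw [← Real.exp_nat_mul, ← Real.exp_nat_mul, ← Real.exp_add, ← Real.exp_add, ← Real.exp_add]
    congr 1
    push_cast
    ring
  calc _ = (p : ℝ) ^ k * (Real.exp (-(δ ^ 2 / 16) * β) *
        Real.exp ((g + δ ^ 2 / 128) * ((2 * β + 2 : ℕ) : ℝ)) *
      Real.exp (-(g - δ ^ 2 / 128)) ^ (2 * β + 2)) := by ring
    _ = _ := by rw [e1]; ring

/-- the number of prefixes of points near the points of small order -/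
noncomputable def WN (p β₀ : ℕ) : ℕ := 4 * (UP.tor_finite (p ^ β₀)).toFinset.card

/-- the threshold -/
noncomputable def FF (p β₀ : ℕ) : ℕ := p ^ WN p β₀

lemma pow_mem {p : ℕ} {K : Set X} (hinv : ∀ x ∈ K, p • x ∈ K) (j : ℕ) :
    ∀ x ∈ K, (p ^ j : ℕ) • x ∈ K := by
  induction j with
  | zero => intro x hx; rw [pow_zero, one_smul]; exact hx
  | succ j ih =>
    intro x hx
    rw [pow_succ', mul_smul]
    exact hinv _ (ih x hx)

lemma gr_nonneg {p : ℕ} (hp : 2 ≤ p) {K : Set X} (hne : K.Nonempty) : 0 ≤ gr p K := by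
  apply le_ciInf
  intro n
  have h1 : (1 : ℝ) ≤ cnt p (n + 1) K := by exact_mod_cast cnt_pos hp hne (n + 1)
  have := Real.log_nonneg h1
  positivity

/-- **No bad points.** -/
theorem no_bad {p : ℕ} (hp : 2 ≤ p) {K : Set X} (hne : K.Nonempty)
    (hinv : ∀ x ∈ K, p • x ∈ K) {δ : ℝ} (hδ : 0 < δ) {J k : ℕ} (hk : 1 ≤ k)
    (hlog : Real.log (cnt p k K) ≤ (gr p K + δ ^ 2 / 128) * k) (hcase : gr p K ≤ δ ^ 2 / 128)
    {β₀ : ℕ} (hlev : Level p k δ J β₀) {N : ℕ} {H : ℕ → ℕ}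
    (hH : ∀ a < J, H a ∉ Ex p k (wd p k K) δ β₀ N) :
    ∀ x ∈ K, ∀ β ≥ β₀, ∀ a < J, D p (2 * β + 2) x ∉ BW p δ β N (H a) := by
  classical
  intro x₀ hx₀K β hβ a ha hcon
  have hp0 : (0 : ℝ) < p := by
    have : 0 < p := by omega
    exact_mod_cast this
  have hd : 0 < δ ^ 2 := by positivity
  set A := wd p k K with hA
  have hAne : A.Nonempty := by
    obtain ⟨x, hx⟩ := hne
    exact ⟨_, mem_wd hp k hx⟩
  have hlog' : Real.log A.card ≤ (gr p K + δ ^ 2 / 128) * k := by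
    rw [hA, card_wd]
    exact hlog
  set ϑ := Real.exp (-(δ ^ 2 / 32)) with hϑ
  have hϑ0 : 0 < ϑ := Real.exp_pos _
  have hϑ1 : ϑ < 1 := Real.exp_lt_one_iff.2 (by linarith)
  set θ := Real.exp (-(gr p K - δ ^ 2 / 128)) with hθ
  have hsmall := hlev.small
  rw [← hϑ] at hsmall
  have h1 := nb_le hk hAne (gr_nonneg hp hne) hlog' (hH a ha) hβ
  rw [← hθ, ← hϑ] at h1
  have hθge : 1 ≤ θ ^ (2 * β + 2) := one_le_pow₀ (Real.one_le_exp (by linarith))
  have h2 : 1 ≤ nb p k A δ β N (H a) := by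
    unfold nb
    exact card_pos.2 ⟨_, mem_filter.2 ⟨mem_TT hp β fun j => mem_wd hp k (pow_mem hinv j x₀ hx₀K), hcon⟩⟩
  have h3 : (1 : ℝ) ≤ (nb p k A δ β N (H a) : ℝ) := by exact_mod_cast h2
  have h4 : (1 : ℝ) ≤ (nb p k A δ β N (H a) : ℝ) * θ ^ (2 * β + 2) :=
    one_le_mul_of_one_le_of_one_le h3 hθge
  have hJ : (1 : ℝ) ≤ J := by
    have : 1 ≤ J := by omega
    exact_mod_cast this
  have h5 : ϑ ^ β ≤ ϑ ^ β₀ := pow_le_pow_of_le_one hϑ0.le hϑ1.le hβ
  have h6 : ϑ ^ β₀ ≤ ϑ ^ β₀ / (1 - ϑ) := by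
    rw [le_div_iff₀ (by linarith)]
    have : 0 < ϑ ^ β₀ := by positivity
    nlinarith
  have hC : 0 ≤ (p : ℝ) ^ k * Real.exp (δ ^ 2 / 32) := by positivity
  have h7 : (p : ℝ) ^ k * Real.exp (δ ^ 2 / 32) * ϑ ^ β ≤
      (p : ℝ) ^ k * Real.exp (δ ^ 2 / 32) * (ϑ ^ β₀ / (1 - ϑ)) :=
    mul_le_mul_of_nonneg_left (h5.trans h6) hC
  have h8 : 0 ≤ (p : ℝ) ^ k * Real.exp (δ ^ 2 / 32) * (ϑ ^ β₀ / (1 - ϑ)) := by
    have : 0 < 1 - ϑ := by linarith
    positivity
  have h9 : (p : ℝ) ^ k * Real.exp (δ ^ 2 / 32) * (ϑ ^ β₀ / (1 - ϑ)) ≤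
      (J : ℝ) * (p : ℝ) ^ k * Real.exp (δ ^ 2 / 32) * (ϑ ^ β₀ / (1 - ϑ)) := by
    have := mul_le_mul_of_nonneg_right hJ h8
    linarith
  linarith

/-- **A point which is not bad.** -/
theorem good_point {p : ℕ} (hp : 2 ≤ p) {K : Set X} (hinf : K.Infinite)
    (hinv : ∀ x ∈ K, p • x ∈ K) {δ : ℝ} (hδ : 0 < δ) {J k : ℕ} (hk : 1 ≤ k)
    (hlog : Real.log (cnt p k K) ≤ (gr p K + δ ^ 2 / 128) * k) :
    ∃ N₀ : ℕ, ∀ β₀ : ℕ, Level p k δ J β₀ → ∀ N ≥ N₀, FF p β₀ ≤ N → ∀ H : ℕ → ℕ,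
      (∀ a < J, H a ∉ Ex p k (wd p k K) δ β₀ N) →
      ∃ x ∈ K, x ∉ Near (p ^ β₀) N ∧ ∀ β ≥ β₀, ∀ a < J, D p (2 * β + 2) x ∉ BW p δ β N (H a) := by
  classical
  have hne := hinf.nonempty
  have hp0 : (0 : ℝ) < p := by
    have : 0 < p := by omega
    exact_mod_cast this
  have hd : 0 < δ ^ 2 := by positivity
  have hpow : ∀ (j : ℕ) (x : X), x ∈ K → (p ^ j : ℕ) • x ∈ K := by
    intro j
    induction j with
    | zero => intro x hx; rw [pow_zero, one_smul]; exact hx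
    | succ j ih =>
      intro x hx
      rw [pow_succ', mul_smul]
      exact hinv _ (ih x hx)
  set A := wd p k K with hA
  have hAne : A.Nonempty := by
    obtain ⟨x, hx⟩ := hne
    exact ⟨_, mem_wd hp k hx⟩
  set g := gr p K with hg
  have hg0 : 0 ≤ g := by
    apply le_ciInf
    intro n
    have h1 : (1 : ℝ) ≤ cnt p (n + 1) K := by exact_mod_cast cnt_pos hp hne (n + 1)
    have := Real.log_nonneg h1
    positivity
  have hlog' : Real.log A.card ≤ (g + δ ^ 2 / 128) * k := by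
    rw [hA, card_wd]
    exact hlog
  have hT : ∀ x ∈ K, ∀ β, D p (2 * β + 2) x ∈ TT p k A β := fun x hx β =>
    mem_TT hp β fun j => mem_wd hp k (hpow j x hx)
  set ϑ := Real.exp (-(δ ^ 2 / 32)) with hϑ
  have hϑ0 : 0 < ϑ := Real.exp_pos _
  have hϑ1 : ϑ < 1 := Real.exp_lt_one_iff.2 (by linarith)
  set θ := Real.exp (-(g - δ ^ 2 / 128)) with hθ
  have hθ0 : 0 < θ := Real.exp_pos _
  rcases le_or_gt g (δ ^ 2 / 128) with hcase | hcase
  · -- no bad word at all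
    refine ⟨0, fun β₀ hlev N _ hNF H hH => ?_⟩
    have hx₀ : ∃ x ∈ K, x ∉ Near (p ^ β₀) N := by
      by_contra hcon
      push Not at hcon
      have h1 := morse hp hinf hinv (WN p β₀)
      have h2 := cnt_mono (p := p) (WN p β₀) (show K ⊆ Near (p ^ β₀) N from hcon)
      have h3 := cnt_Near hp (p ^ β₀) (WN p β₀) N (hNF.trans (Nat.le_succ N))
      have h4 : UP.cnt p (WN p β₀) (Near (p ^ β₀) N) ≤ WN p β₀ := h3
      omega
    obtain ⟨x₀, hx₀K, hx₀N⟩ := hx₀
    exact ⟨x₀, hx₀K, hx₀N, no_bad hp hne hinv hδ hk hlog hcase hlev hH x₀ hx₀K⟩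
  · have hθ1 : θ < 1 := Real.exp_lt_one_iff.2 (by linarith)
    have htend : Tendsto (fun ℓ : ℕ => (ℓ : ℝ) * θ ^ ℓ) atTop (𝓝 0) :=
      tendsto_self_mul_const_pow_of_lt_one hθ0.le hθ1
    obtain ⟨ℓ₀, hℓ₀⟩ := eventually_atTop.1 ((htend.eventually
      (gt_mem_nhds (show (0 : ℝ) < 1 / 4 by norm_num))).and (eventually_ge_atTop 1))
    refine ⟨p ^ ℓ₀, fun β₀ hlev N hN hNF H hH => ?_⟩
    have hsmall := hlev.small
    rw [← hϑ] at hsmall
    set W : ℕ := WN p β₀ with hW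
    set ℓ := max ℓ₀ W with hℓ
    have hpℓ : p ^ ℓ ≤ N := by
      rcases le_total ℓ₀ W with h | h
      · rw [hℓ, max_eq_right h]
        exact hNF
      · rw [hℓ, max_eq_left h]
        exact hN
    have hℓ2 : 1 ≤ ℓ := (hℓ₀ ℓ₀ le_rfl).2.trans (le_max_left _ _)
    have hℓ1 : (W : ℝ) * θ ^ ℓ < 1 / 4 := by
      refine lt_of_le_of_lt ?_ (hℓ₀ ℓ (le_max_left _ _)).1
      apply mul_le_mul_of_nonneg_right _ (by positivity)
      exact_mod_cast le_max_right _ _
    by_contra hcon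
    push Not at hcon
    -- the family of cylinders
    set C1 : Finset (ℕ × ℕ) := (wd p ℓ (Near (p ^ β₀) N)).image fun s => (ℓ, s) with hC1
    set C2 : Finset (ℕ × ℕ) := (Finset.Ico β₀ N).biUnion fun β => (range J).biUnion fun a =>
      ((TT p k A β).filter fun s => s ∈ BW p δ β N (H a) ∧ s < p ^ (2 * β + 2)).image
        fun s => (2 * β + 2, s) with hC2
    set L := ℓ + (2 * N + 2) with hL
    have hfn : ∀ c : ℕ × ℕ, 0 ≤ θ ^ c.1 := fun c => by positivity
    have hs1 : ∑ c ∈ C1, θ ^ c.1 ≤ 1 / 4 := by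
      rw [hC1]
      refine (sum_image_le_of_nonneg fun c _ => hfn c).trans ?_
      simp only [sum_const, nsmul_eq_mul, card_wd]
      refine le_trans (mul_le_mul_of_nonneg_right ?_ (by positivity)) hℓ1.le
      have := cnt_Near hp (p ^ β₀) ℓ N (by omega)
      exact_mod_cast this
    have hs2 : ∑ c ∈ C2, θ ^ c.1 ≤ 1 / 4 := by
      rw [hC2]
      refine (sum_biUnion_le _ _ _ hfn).trans ?_
      have h1 : ∀ β ∈ Finset.Ico β₀ N, ∑ c ∈ (range J).biUnion (fun a =>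
          ((TT p k A β).filter fun s => s ∈ BW p δ β N (H a) ∧ s < p ^ (2 * β + 2)).image
          fun s => (2 * β + 2, s)), θ ^ c.1 ≤
          (J * (p : ℝ) ^ k * Real.exp (δ ^ 2 / 32)) * ϑ ^ β := by
        intro β hβ
        refine (sum_biUnion_le _ _ _ hfn).trans ?_
        have h2 : ∀ a ∈ range J, ∑ c ∈ ((TT p k A β).filter fun s => s ∈ BW p δ β N (H a) ∧
            s < p ^ (2 * β + 2)).image (fun s => (2 * β + 2, s)), θ ^ c.1 ≤
            (p : ℝ) ^ k * Real.exp (δ ^ 2 / 32) * ϑ ^ β := by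
          intro a ha
          refine (sum_image_le_of_nonneg fun c _ => hfn c).trans ?_
          simp only [sum_const, nsmul_eq_mul]
          refine le_trans ?_ (nb_le hk hAne hg0 hlog' (hH a (mem_range.1 ha)) (mem_Ico.1 hβ).1)
          rw [← hθ]
          apply mul_le_mul_of_nonneg_right _ (by positivity)
          unfold nb
          have : ((TT p k A β).filter fun s => s ∈ BW p δ β N (H a) ∧ s < p ^ (2 * β + 2)).card ≤
              ((TT p k A β).filter fun s => s ∈ BW p δ β N (H a)).card := by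
            apply card_le_card
            intro s hs
            rw [mem_filter] at hs ⊢
            exact ⟨hs.1, hs.2.1⟩
          exact_mod_cast this
        refine (sum_le_sum h2).trans (le_of_eq ?_)
        rw [sum_const, card_range, nsmul_eq_mul]
        ring
      refine (sum_le_sum h1).trans ?_
      rw [← mul_sum]
      refine le_trans (mul_le_mul_of_nonneg_left ?_ (by positivity)) hsmall
      refine le_trans (sum_le_sum_of_subset_of_nonneg ?_ fun _ _ _ => by positivity)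
        (geom_tail hϑ0 hϑ1 β₀ N)
      intro β hβ
      rw [mem_Ico] at hβ ⊢
      omega
    have hFam : C1 ∪ C2 ∈ Fam p θ L := by
      rw [mem_Fam]
      constructor
      · intro c hc
        rw [mem_union] at hc
        rcases hc with hc | hc
        · rw [hC1, mem_image] at hc
          obtain ⟨s, hs, rfl⟩ := hc
          unfold wd at hs
          rw [mem_filter, mem_range] at hs
          refine ⟨by simp only; omega, ?_, hℓ2⟩
          exact hs.1.trans_le (Nat.pow_le_pow_right (by omega) (by omega))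
        · rw [hC2, mem_biUnion] at hc
          obtain ⟨β, hβ, hc⟩ := hc
          rw [mem_biUnion] at hc
          obtain ⟨a, ha, hc⟩ := hc
          rw [mem_image] at hc
          obtain ⟨s, hs, rfl⟩ := hc
          rw [mem_filter] at hs
          rw [mem_Ico] at hβ
          refine ⟨by simp only; omega, ?_, by simp only; omega⟩
          exact hs.2.2.trans_le (Nat.pow_le_pow_right (by omega) (by omega))
      · have h1 := sum_union_inter (s₁ := C1) (s₂ := C2) (f := fun c : ℕ × ℕ => θ ^ c.1)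
        have h0 : 0 ≤ ∑ c ∈ C1 ∩ C2, θ ^ c.1 := sum_nonneg fun c _ => hfn c
        linarith
    have hcov : ∀ x ∈ K, x ∈ Un p (C1 ∪ C2) := by
      intro x hx
      by_cases hnear : x ∈ Near (p ^ β₀) N
      · refine ⟨(ℓ, D p ℓ x), ?_, rfl⟩
        rw [mem_union]
        left
        exact mem_image_of_mem _ (mem_wd hp ℓ hnear)
      · obtain ⟨β, hβ, a, ha, hbw⟩ := hcon x hx hnear
        refine ⟨(2 * β + 2, D p (2 * β + 2) x), ?_, rfl⟩
        rw [mem_union]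
        right
        rw [hC2, mem_biUnion]
        have hβN : β < N := by
          by_contra hcon2
          rw [BW_empty hp (not_lt.1 hcon2)] at hbw
          exact hbw
        refine ⟨β, mem_Ico.2 ⟨hβ, hβN⟩, ?_⟩
        rw [mem_biUnion]
        refine ⟨a, mem_range.2 ha, mem_image_of_mem _ ?_⟩
        rw [mem_filter]
        exact ⟨hT x hx β, hbw, D_lt hp _ _⟩
    have hbad : ∀ R, K ⊆ {x | bad p (Un p (C1 ∪ C2)) R x ≤ 0} := by
      intro R x hx
      change bad p (Un p (C1 ∪ C2)) R x ≤ 0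
      unfold bad
      rw [Nat.le_zero, card_eq_zero, filter_eq_empty_iff]
      intro j _
      rw [not_not]
      exact hcov _ (hpow j x hx)
    have hgrow : ∀ R : ℕ, Real.exp (δ ^ 2 / 128 * R) ≤ (p : ℝ) ^ L := by
      intro R
      have h1 := count hp hθ0 hθ1 hFam R 0
      rw [pow_zero, mul_one] at h1
      have h2 : (cnt p R K : ℝ) ≤ cnt p R {x | bad p (Un p (C1 ∪ C2)) R x ≤ 0} := by
        exact_mod_cast cnt_mono R (hbad R)
      have h3 : Real.exp (g * R) ≤ cnt p R K := by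
        have h4 : (0 : ℝ) < cnt p R K := by exact_mod_cast cnt_pos hp hne R
        rw [← Real.exp_log h4]
        exact Real.exp_le_exp.2 (gr_le hp hne R)
      have h5 : Real.exp (g * R) * θ ^ R ≤ (p : ℝ) ^ L :=
        (mul_le_mul_of_nonneg_right (h3.trans h2) (by positivity)).trans h1
      refine le_trans (le_of_eq ?_) h5
      rw [hθ, ← Real.exp_nat_mul, ← Real.exp_add]
      congr 1
      ring
    have ht : Tendsto (fun R : ℕ => Real.exp (δ ^ 2 / 128 * R)) atTop atTop :=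
      Real.tendsto_exp_atTop.comp (tendsto_natCast_atTop_atTop.const_mul_atTop (by positivity))
    obtain ⟨R, hR⟩ := (ht.eventually_gt_atTop ((p : ℝ) ^ L)).exists
    linarith [hgrow R]

end Pool.Agent.TH463.US
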