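import Pool.Agent.TH463.UQ.Point

/-!
The trichotomy for all multipliers at once.
-/

set_option autoImplicit false

open Finset Filter Topology

namespace Pool.Agent.TH463.US

open Pool.Agent.H769R3 (X rep coe_rep norm_coe_le coe_int_zero fourier_norm fourier_lip)
open Pool.Agent.TH463.UP (D D_lt D_add Appr BadPair Near Tor)
open Pool.Agent.TH463.UQ (BW Su)

/-- near a point of small order, or a common scale at which every multiplier is good or bad -/
lemma tri {p : ℕ} (hp : 2 ≤ p) {δ : ℝ} (hδ : 0 < δ) {β₀ N : ℕ}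
    (hδβ : 2 * Real.pi ≤ δ * β₀) (hN0 : 0 < N) (x : X) :
    x ∈ Near (p ^ β₀) N ∨ ∃ β ∈ Finset.Ico β₀ N, p ^ β ≤ N ∧ ∀ h < N, ‖Su p h β x‖ ≤ 2 * δ * β ∨
      D p (2 * β + 2) x ∈ BW p δ β N h := by
  have hp1 : 1 < p := by omega
  have hpR : (2 : ℝ) ≤ p := by exact_mod_cast hp
  have hNR : (0 : ℝ) < (N : ℝ) + 1 := by positivity
  obtain ⟨ρ, hρ1, hρ2⟩ := Real.exists_rat_abs_sub_le_and_den_le (rep x) hN0
  have hden : (1 : ℝ) ≤ ρ.den := by exact_mod_cast ρ.den_pos
  have hclose : ‖x - ((ρ : ℝ) : X)‖ ≤ |rep x - ρ| := by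
    have e : x - ((ρ : ℝ) : X) = ((rep x - ρ : ℝ) : X) := by
      rw [AddCircle.coe_sub, coe_rep]
    rw [e]
    exact norm_coe_le _
  by_cases hsmall : ρ.den < p ^ β₀
  · left
    unfold Near
    refine Metric.mem_cthickening_of_dist_le x ((ρ : ℝ) : X) _ _ ?_ ?_
    · refine ⟨ρ.den, ρ.den_pos, hsmall, ?_⟩
      rw [← AddCircle.coe_nsmul, nsmul_eq_mul]
      have e : (ρ.den : ℝ) * (ρ : ℝ) = ((ρ.num : ℤ) : ℝ) := by
        have := Rat.den_mul_eq_num ρ
        exact_mod_cast this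
      rw [e]
      exact coe_int_zero _
    · rw [dist_eq_norm]
      refine hclose.trans (hρ1.trans ?_)
      apply one_div_le_one_div_of_le hNR
      nlinarith
  · rw [not_lt] at hsmall
    right
    set β := Nat.log p ρ.den with hβ
    have hb1 : p ^ β ≤ ρ.den := Nat.pow_log_le_self p ρ.den_nz
    have hb2 : ρ.den < p ^ (β + 1) := Nat.lt_pow_succ_log_self hp1 _
    have hb3 : β₀ ≤ β := (Nat.le_log_iff_pow_le hp1 ρ.den_nz).2 hsmall
    have hb4 : β < N := (Nat.lt_pow_self hp1).trans_le (hb1.trans hρ2)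
    refine ⟨β, mem_Ico.2 ⟨hb3, hb4⟩, hb1.trans hρ2, fun h hN => ?_⟩
    by_cases hbad : BadPair p δ β h ρ
    · right
      exact ⟨ρ, ⟨hb1, hb2, hρ2, x, rfl, hρ1⟩, hbad⟩
    · left
      unfold BadPair at hbad
      rw [not_lt] at hbad
      unfold Su
      have hdiff : ‖∑ j ∈ range β, (fourier (h : ℤ) ((p ^ j : ℕ) • x) : ℂ) -
          ∑ j ∈ range β, (fourier (h : ℤ) ((p ^ j : ℕ) • ((ρ : ℝ) : X)) : ℂ)‖ ≤ 2 * Real.pi := by
        rw [← sum_sub_distrib]
        refine (norm_sum_le _ _).trans ?_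
        have hterm : ∀ j ∈ range β, ‖(fourier (h : ℤ) ((p ^ j : ℕ) • x) : ℂ) -
            fourier (h : ℤ) ((p ^ j : ℕ) • ((ρ : ℝ) : X))‖ ≤
            (2 * Real.pi * h * |rep x - ρ|) * (p : ℝ) ^ j := by
          intro j _
          refine (fourier_lip _ _ _).trans ?_
          rw [← smul_sub]
          have h1 : ‖(p ^ j : ℕ) • (x - ((ρ : ℝ) : X))‖ ≤ (p : ℝ) ^ j * |rep x - ρ| := by
            refine norm_nsmul_le.trans ?_
            push_cast
            exact mul_le_mul_of_nonneg_left hclose (by positivity)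
          have h2 : |((h : ℤ) : ℝ)| = h := by simp
          rw [h2]
          calc 2 * Real.pi * h * ‖(p ^ j : ℕ) • (x - ((ρ : ℝ) : X))‖ ≤
                2 * Real.pi * h * ((p : ℝ) ^ j * |rep x - ρ|) :=
                mul_le_mul_of_nonneg_left h1 (by positivity)
            _ = _ := by ring
        refine (sum_le_sum hterm).trans ?_
        rw [← mul_sum]
        have h3 : ∑ j ∈ range β, (p : ℝ) ^ j ≤ (p : ℝ) ^ β := by
          rw [geom_sum_eq (by linarith)]
          rw [div_le_iff₀ (by linarith)]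
          have : (0 : ℝ) < (p : ℝ) ^ β := by positivity
          nlinarith
        have h4 : (h : ℝ) ≤ N + 1 := by
          have : (h : ℝ) < N := by exact_mod_cast hN
          linarith
        have h5 : (p : ℝ) ^ β ≤ ρ.den := by exact_mod_cast hb1
        calc 2 * Real.pi * h * |rep x - ρ| * ∑ j ∈ range β, (p : ℝ) ^ j ≤
              2 * Real.pi * h * |rep x - ρ| * (p : ℝ) ^ β :=
              mul_le_mul_of_nonneg_left h3 (by positivity)
          _ ≤ 2 * Real.pi * (N + 1) * (1 / ((N + 1) * ρ.den)) * ρ.den := by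
            apply mul_le_mul _ h5 (by positivity) (by positivity)
            apply mul_le_mul _ hρ1 (abs_nonneg _) (by positivity)
            exact mul_le_mul_of_nonneg_left h4 (by positivity)
          _ = 2 * Real.pi := by
            field_simp
      have htri : ‖∑ j ∈ range β, (fourier (h : ℤ) ((p ^ j : ℕ) • x) : ℂ)‖ ≤
          ‖∑ j ∈ range β, (fourier (h : ℤ) ((p ^ j : ℕ) • x) : ℂ) -
          ∑ j ∈ range β, (fourier (h : ℤ) ((p ^ j : ℕ) • ((ρ : ℝ) : X)) : ℂ)‖ +
          ‖∑ j ∈ range β, (fourier (h : ℤ) ((p ^ j : ℕ) • ((ρ : ℝ) : X)) : ℂ)‖ := by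
        refine le_trans (le_of_eq ?_) (norm_add_le _ _)
        congr 1
        ring
      have hβR : (β₀ : ℝ) ≤ β := by exact_mod_cast hb3
      have h6 : δ * β₀ ≤ δ * β := mul_le_mul_of_nonneg_left hβR hδ.le
      linarith

/-- the number of prefixes of points near the points of small order -/
lemma cnt_Near {p : ℕ} (hp : 2 ≤ p) (Q : ℕ) (ℓ N : ℕ) (hN : p ^ ℓ ≤ N + 1) :
    UP.cnt p ℓ (Near Q N) ≤ 4 * (UP.tor_finite Q).toFinset.card := by
  have hp0 : (0 : ℝ) < p := by
    have : 0 < p := by omega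
    exact_mod_cast this
  refine (UP.cnt_near hp ℓ 1 (Near Q N) (UP.tor_finite Q).toFinset ?_)
  intro x hx
  unfold Near at hx
  rw [(UP.tor_finite Q).isCompact.cthickening_eq_biUnion_closedBall (by positivity)] at hx
  simp only [Set.mem_iUnion] at hx
  obtain ⟨z, hz, hxz⟩ := hx
  refine ⟨z, by simpa using hz, ?_⟩
  rw [Metric.mem_closedBall, dist_eq_norm] at hxz
  refine hxz.trans ?_
  push_cast
  apply one_div_le_one_div_of_le (by positivity)
  exact_mod_cast hN

end Pool.Agent.TH463.US
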