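import Pool.Agent.TH463.US.Words
import Pool.Agent.TH463.US.Tri

/-!
An infinite invariant set has at least `ℓ + 1` words of length `ℓ` (Morse–Hedlund).
-/

set_option autoImplicit false

open Finset Filter Topology

namespace Pool.Agent.TH463.US

open Pool.Agent.H769R3 (X rep coe_rep rep_nonneg)
open Pool.Agent.TH463.UP (D D_lt D_add cnt)

open Classical in
/-- the words of a set -/
noncomputable def wd (p k : ℕ) (K : Set X) : Finset ℕ :=
  (range (p ^ k)).filter fun s => ∃ x ∈ K, D p k x = s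

lemma card_wd (p k : ℕ) (K : Set X) : (wd p k K).card = cnt p k K := by
  classical
  unfold wd cnt
  congr!

lemma mem_wd {p : ℕ} (hp : 2 ≤ p) (k : ℕ) {K : Set X} {x : X} (hx : x ∈ K) : D p k x ∈ wd p k K := by
  classical
  unfold wd
  rw [mem_filter, mem_range]
  exact ⟨D_lt hp k x, x, hx, rfl⟩

lemma exists_of_wd {p k s : ℕ} {K : Set X} (hs : s ∈ wd p k K) : ∃ x ∈ K, D p k x = s := by
  classical
  unfold wd at hs
  exact (mem_filter.1 hs).2

lemma D_div {p : ℕ} (hp : 2 ≤ p) (ℓ m : ℕ) (x : X) : D p (ℓ + m) x / p ^ m = D p ℓ x := by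
  have h0 : 0 < p ^ m := by positivity
  rw [D_add, mul_comm, Nat.mul_add_div h0, Nat.div_eq_of_lt (D_lt hp m _), add_zero]

lemma D_mod {p : ℕ} (hp : 2 ≤ p) (ℓ m : ℕ) (x : X) :
    D p (ℓ + m) x % p ^ m = D p m ((p ^ ℓ : ℕ) • x) := by
  rw [D_add, mul_comm, Nat.mul_add_mod, Nat.mod_eq_of_lt (D_lt hp m _)]

/-- points with the same digits are equal -/
lemma eq_of_D {p : ℕ} (hp : 2 ≤ p) {x y : X} (ℓ : ℕ) (h : ∀ n, D p (ℓ + n) x = D p (ℓ + n) y) :
    x = y := by
  have hpR : (1 : ℝ) < p := by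
    have : 1 < p := by omega
    exact_mod_cast this
  have hp0 : (0 : ℝ) < p := by linarith
  have key : ∀ n : ℕ, |rep x - rep y| * (p : ℝ) ^ n ≤ 1 := by
    intro n
    have h1 := h n
    unfold D at h1
    have hx0 : 0 ≤ (p : ℝ) ^ (ℓ + n) * rep x := mul_nonneg (by positivity) (rep_nonneg x)
    have hy0 : 0 ≤ (p : ℝ) ^ (ℓ + n) * rep y := mul_nonneg (by positivity) (rep_nonneg y)
    have hx1 := Nat.floor_le hx0
    have hx2 := Nat.lt_floor_add_one ((p : ℝ) ^ (ℓ + n) * rep x)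
    have hy1 := Nat.floor_le hy0
    have hy2 := Nat.lt_floor_add_one ((p : ℝ) ^ (ℓ + n) * rep y)
    rw [h1] at hx1 hx2
    have h2 : |(p : ℝ) ^ (ℓ + n) * rep x - (p : ℝ) ^ (ℓ + n) * rep y| ≤ 1 := by
      rw [abs_le]
      constructor <;> linarith
    rw [← mul_sub, abs_mul, abs_of_pos (by positivity : (0 : ℝ) < (p : ℝ) ^ (ℓ + n))] at h2
    have h3 : (p : ℝ) ^ n ≤ (p : ℝ) ^ (ℓ + n) := pow_le_pow_right₀ hpR.le (by omega)
    have := mul_le_mul_of_nonneg_right h3 (abs_nonneg (rep x - rep y))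
    linarith
  have h0 : |rep x - rep y| = 0 := by
    by_contra hne
    have hpos : 0 < |rep x - rep y| := lt_of_le_of_ne (abs_nonneg _) (Ne.symm hne)
    obtain ⟨n, hn⟩ := pow_unbounded_of_one_lt (1 / |rep x - rep y|) hpR
    rw [div_lt_iff₀ hpos] at hn
    have := key n
    linarith
  have h1 : rep x = rep y := sub_eq_zero.1 (abs_eq_zero.1 h0)
  rw [← coe_rep x, ← coe_rep y, h1]

/-- **Morse–Hedlund.** -/
theorem morse {p : ℕ} (hp : 2 ≤ p) {K : Set X} (hinf : K.Infinite) (hinv : ∀ x ∈ K, p • x ∈ K)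
    (ℓ : ℕ) : ℓ + 1 ≤ cnt p ℓ K := by
  induction ℓ with
  | zero =>
    obtain ⟨x, hx⟩ := hinf.nonempty
    rw [← card_wd]
    exact card_pos.2 ⟨_, mem_wd hp 0 hx⟩
  | succ ℓ ih =>
    by_contra hcon
    have hle : (wd p (ℓ + 1) K).card ≤ (wd p ℓ K).card := by
      rw [card_wd, card_wd]
      omega
    have hsurj : ∀ s ∈ wd p ℓ K, ∃ t ∈ wd p (ℓ + 1) K, t / p ^ 1 = s := by
      intro s hs
      obtain ⟨x, hx, rfl⟩ := exists_of_wd hs
      exact ⟨_, mem_wd hp (ℓ + 1) hx, D_div hp ℓ 1 x⟩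
    have hmaps : ∀ t ∈ wd p (ℓ + 1) K, t / p ^ 1 ∈ wd p ℓ K := by
      intro t ht
      obtain ⟨x, hx, rfl⟩ := exists_of_wd ht
      rw [D_div hp ℓ 1 x]
      exact mem_wd hp ℓ hx
    have himg : (wd p (ℓ + 1) K).image (fun t => t / p ^ 1) = wd p ℓ K := by
      ext s
      rw [mem_image]
      constructor
      · rintro ⟨t, ht, rfl⟩
        exact hmaps t ht
      · exact hsurj s
    have hinj : Set.InjOn (fun t => t / p ^ 1) (wd p (ℓ + 1) K : Set ℕ) := by
      apply card_image_iff.1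
      rw [himg]
      refine le_antisymm ?_ hle
      rw [← himg]
      exact card_image_le
    have hstep : ∀ x ∈ K, ∀ y ∈ K, D p ℓ x = D p ℓ y → D p (ℓ + 1) x = D p (ℓ + 1) y := by
      intro x hx y hy h
      apply hinj (mem_coe.2 (mem_wd hp (ℓ + 1) hx)) (mem_coe.2 (mem_wd hp (ℓ + 1) hy))
      simp only
      rw [D_div hp ℓ 1 x, D_div hp ℓ 1 y, h]
    have hall : ∀ n : ℕ, ∀ x ∈ K, ∀ y ∈ K, D p ℓ x = D p ℓ y → D p (ℓ + n) x = D p (ℓ + n) y := by
      intro n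
      induction n with
      | zero => intro x _ y _ h; exact h
      | succ n ihn =>
        intro x hx y hy h
        have h1 := hstep x hx y hy h
        rw [add_comm ℓ 1] at h1
        have h2 : D p 1 x = D p 1 y := by
          rw [← D_div hp 1 ℓ x, ← D_div hp 1 ℓ y, h1]
        have h3 : D p ℓ ((p ^ 1 : ℕ) • x) = D p ℓ ((p ^ 1 : ℕ) • y) := by
          rw [← D_mod hp 1 ℓ x, ← D_mod hp 1 ℓ y, h1]
        have hx' : (p ^ 1 : ℕ) • x ∈ K := by rw [pow_one]; exact hinv x hx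
        have hy' : (p ^ 1 : ℕ) • y ∈ K := by rw [pow_one]; exact hinv y hy
        have h4 := ihn _ hx' _ hy' h3
        have e : ℓ + (n + 1) = 1 + (ℓ + n) := by omega
        rw [e, D_add 1 (ℓ + n) x, D_add 1 (ℓ + n) y, h2, h4]
    apply hinf
    apply Set.Finite.of_finite_image (f := D p ℓ)
    · refine Set.Finite.subset (wd p ℓ K).finite_toSet ?_
      rintro _ ⟨x, hx, rfl⟩
      exact mem_coe.2 (mem_wd hp ℓ hx)
    · intro x hx y hy h
      exact eq_of_D hp ℓ fun n => hall n x hx y hy h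

end Pool.Agent.TH463.US
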