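import Pool.Agent.TH463.US.Univ
import Pool.Agent.TH463.US.Dim
import Pool.Agent.TH463.UR.Primes

/-!
A universal set of multipliers of density one which contains almost all primes.
-/

set_option autoImplicit false

open Finset Filter Topology

namespace Pool.Agent.TH463.US

open Pool.Agent.H769R3 (X)
open Pool.Agent.TH463.UR (BT Reg sh card_setOf GP reg_GP bt_primes GP_le_count)

lemma reg_id : Reg (fun N : ℕ => (N : ℝ)) where
  nonneg N := Nat.cast_nonneg N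
  mul A := ⟨A, Nat.cast_nonneg A, fun N M _ h => by exact_mod_cast h⟩
  sum := by
    refine ⟨4, by norm_num, fun N hN => ?_⟩
    have h1 : ∀ i ∈ range (Nat.log 2 N + 1), ((2 ^ (i + 1) : ℕ) : ℝ) = 2 * 2 ^ i := by
      intro i _
      push_cast
      rw [pow_succ]
      ring
    rw [sum_congr rfl h1, ← mul_sum, geom_sum_eq (by norm_num)]
    have h4 : (2 : ℝ) ^ (Nat.log 2 N) ≤ N := by exact_mod_cast Nat.pow_log_le_self 2 (by omega)
    rw [pow_succ]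
    norm_num
    linarith

open Classical in
lemma bt_id : BT Set.univ (fun N : ℕ => (N : ℝ)) 2 0 := by
  intro N b r hb hbN
  rw [card_setOf N (fun h => h ∈ Set.univ ∧ h % b = r)]
  have h1 : ((range N).filter fun h => h ∈ Set.univ ∧ h % b = r).card ≤ (range (N / b + 1)).card := by
    apply card_le_card_of_injOn (fun h => h / b)
    · intro h hh
      rw [mem_coe, mem_filter, mem_range] at hh
      rw [mem_coe, mem_range]
      exact Nat.lt_succ_of_le (Nat.div_le_div_right hh.1.le)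
    · intro h hh h' hh' e
      rw [mem_coe, mem_filter] at hh hh'
      simp only at e
      rw [← Nat.div_add_mod h b, ← Nat.div_add_mod h' b, e, hh.2.2, hh'.2.2]
  rw [card_range] at h1
  have hb0 : (0 : ℝ) < b := by exact_mod_cast hb
  rw [pow_zero, mul_one, le_div_iff₀ hb0]
  have h2 : (N / b + 1) * b ≤ 2 * N := by
    have := Nat.div_mul_le_self N b
    rw [add_mul, one_mul]
    omega
  have h3 := (Nat.mul_le_mul_right b h1).trans h2
  show _ ≤ 2 * (N : ℝ)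
  exact_mod_cast h3

/-- from the bounds to the density -/
lemma density {u G : ℕ → ℝ} (hu : ∀ N, 0 ≤ u N) (hG : ∀ N, 0 ≤ G N) (hGt : Tendsto G atTop atTop)
    (h : ∀ r₀ : ℕ, ∃ m₀ : ℕ, ∀ N : ℕ, u N ≤ m₀ + 2 * (1 / 2) ^ r₀ * G N) :
    Tendsto (fun N => u N / G N) atTop (𝓝 0) := by
  rw [Metric.tendsto_nhds]
  intro ε hε
  obtain ⟨r, hr⟩ := exists_pow_lt_of_lt_one (show (0 : ℝ) < ε / 4 by positivity)
    (show (1 / 2 : ℝ) < 1 by norm_num)
  obtain ⟨m₀, hm₀⟩ := h r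
  filter_upwards [hGt.eventually_gt_atTop (2 * m₀ / ε), hGt.eventually_gt_atTop 0] with N h1 h2
  rw [dist_zero_right, Real.norm_eq_abs, abs_of_nonneg (div_nonneg (hu N) (hG N)), div_lt_iff₀ h2]
  rw [div_lt_iff₀ hε] at h1
  have h3 := hm₀ N
  have h4 : 2 * (1 / 2 : ℝ) ^ r * G N < (ε / 2) * G N := by
    apply mul_lt_mul_of_pos_right _ h2
    linarith
  linarith

lemma GP_tendsto : Tendsto GP atTop atTop := by
  have h1 : ∀ᶠ N : ℕ in atTop, Real.sqrt N / 4 ≤ GP N := by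
    filter_upwards [eventually_ge_atTop 1] with N hN
    unfold GP
    have hN1 : (1 : ℝ) ≤ N := by exact_mod_cast hN
    have hs : 1 ≤ Real.sqrt N := by
      rw [Real.one_le_sqrt]
      exact hN1
    have hlog : Real.log N ≤ 2 * Real.sqrt N := by
      have h2 : Real.log N = 2 * Real.log (Real.sqrt N) := by
        rw [Real.log_sqrt (by linarith)]
        ring
      have h3 := Real.log_le_sub_one_of_pos (show 0 < Real.sqrt N by linarith)
      rw [h2]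
      linarith
    have hlog0 : 0 ≤ Real.log N := Real.log_nonneg hN1
    have hsq : Real.sqrt N * Real.sqrt N = N := Real.mul_self_sqrt (by linarith)
    rw [div_le_div_iff₀ (by norm_num) (by linarith)]
    nlinarith
  refine tendsto_atTop_mono' _ h1 ?_
  exact (Real.tendsto_sqrt_atTop.comp tendsto_natCast_atTop_atTop).atTop_div_const (by norm_num)

/-- the multipliers along which the images of the invariant sets become dense -/
def Univl (C : Set ℕ) : Prop := ∀ ε : ℝ, 0 < ε → ∃ M : ℕ, ∀ p : ℕ, 2 ≤ p → ∀ K : Set X, K.Infinite →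
  (∀ x ∈ K, p • x ∈ K) → ∃ c₀ : ℕ, ∀ c ∈ C, c₀ ≤ c → ∃ x ∈ K, ∀ y : X, ∃ j : ℕ,
    p ^ j ≤ M * c ∧ ‖c • ((p ^ j : ℕ) • x) - y‖ < ε

/-- the exponential sums on the invariant sets of dimension zero -/
def WeylZ (ψ : ℕ → ℕ) (C : Set ℕ) : Prop := ∀ δ : ℝ, 0 < δ → ∀ J : ℕ, ∀ p : ℕ, 2 ≤ p →
  ∀ K : Set X, IsClosed K → dimH K = 0 → (∀ x ∈ K, p • x ∈ K) → ∃ c₀ : ℕ, ∀ c ∈ C, c₀ ≤ c →
    ∀ x ∈ K, ∀ n : ℕ, ∀ a < J,
      ‖UQ.Su p ((a + 1) * c) n x‖ ≤ δ * n + ncl p (ψ c) c n x + Nat.log p (2 * J * c)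

/-- a universal subset of a set of Brun–Titchmarsh type -/
theorem exists_univl {ψ : ℕ → ℕ} (hψ : Tendsto ψ atTop atTop) {P : Set ℕ} {G : ℕ → ℝ} {K : ℝ}
    {e : ℕ} (hG : Reg G) (hK : 0 ≤ K)
    (hP : BT P G K e) (hGt : Tendsto G atTop atTop) : ∃ C : Set ℕ, C ⊆ P ∧
    (Univl C ∧ WeylZ ψ C) ∧
    Tendsto (fun N : ℕ => (Nat.card {c : ℕ | c < N ∧ c ∈ P ∧ c ∉ C} : ℝ) / G N) atTop (𝓝 0) := by
  classical
  have hT : ∀ Q : ℕ, ∃ t : ℕ, ∀ c ≥ t, Q ≤ ψ c := fun Q => eventually_atTop.1 (hψ.eventually_ge_atTop Q)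
  choose T hT using hT
  set F : ℕ → ℕ → ℕ := fun p β => max (FF p β) (T (p ^ β)) with hF
  have hF1 : ∀ p β, FF p β ≤ F p β := fun p β => le_max_left _ _
  have hF2 : ∀ p β c, F p β ≤ c → p ^ β ≤ ψ c := fun p β c h => hT _ c ((le_max_right _ _).trans h)
  obtain ⟨C, b, R, hsub, hcard, hL, hC⟩ := exists_diag F hG hK hP
  refine ⟨C, hsub, ⟨fun ε hε => eps_dense hF1 hL hC hε, fun δ hδ J p hp K hcl hdim hinv => ?_⟩, ?_⟩
  · rcases K.eq_empty_or_nonempty with hemp | hne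
    · exact ⟨0, fun c _ _ x hx => absurd hx (by rw [hemp]; exact Set.notMem_empty x)⟩
    · exact zero_weyl hF2 hL hC hδ J p hp K hne hinv (gr_zero hp hne hcl.isCompact hinv hdim)
  apply density (fun N => Nat.cast_nonneg _) hG.nonneg hGt
  intro r₀
  obtain ⟨m₀, hm₀⟩ := hcard r₀
  refine ⟨m₀, fun N => ?_⟩
  rw [card_setOf]
  refine le_trans (le_of_eq ?_) (hm₀ N)
  congr!

lemma Univl.union {C C' : Set ℕ} (h : Univl C) (h' : Univl C') : Univl (C ∪ C') := by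
  intro ε hε
  obtain ⟨M, hM⟩ := h ε hε
  obtain ⟨M', hM'⟩ := h' ε hε
  refine ⟨max M M', fun p hp K hinf hinv => ?_⟩
  obtain ⟨c₀, h1⟩ := hM p hp K hinf hinv
  obtain ⟨c₀', h2⟩ := hM' p hp K hinf hinv
  refine ⟨max c₀ c₀', fun c hc hcm => ?_⟩
  rcases hc with hc | hc
  · obtain ⟨x, hx, h3⟩ := h1 c hc ((le_max_left _ _).trans hcm)
    refine ⟨x, hx, fun y => ?_⟩
    obtain ⟨j, h4, h5⟩ := h3 y
    exact ⟨j, h4.trans (Nat.mul_le_mul_right _ (le_max_left _ _)), h5⟩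
  · obtain ⟨x, hx, h3⟩ := h2 c hc ((le_max_right _ _).trans hcm)
    refine ⟨x, hx, fun y => ?_⟩
    obtain ⟨j, h4, h5⟩ := h3 y
    exact ⟨j, h4.trans (Nat.mul_le_mul_right _ (le_max_right _ _)), h5⟩

lemma WeylZ.union {ψ : ℕ → ℕ} {C C' : Set ℕ} (h : WeylZ ψ C) (h' : WeylZ ψ C') :
    WeylZ ψ (C ∪ C') := by
  intro δ hδ J p hp K hcl hdim hinv
  obtain ⟨c₀, h1⟩ := h δ hδ J p hp K hcl hdim hinv
  obtain ⟨c₀', h2⟩ := h' δ hδ J p hp K hcl hdim hinv
  refine ⟨max c₀ c₀', fun c hc hcm => ?_⟩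
  rcases hc with hc | hc
  · exact h1 c hc ((le_max_left _ _).trans hcm)
  · exact h2 c hc ((le_max_right _ _).trans hcm)

/-- **The universal set.** -/
theorem universal {ψ : ℕ → ℕ} (hψ : Tendsto ψ atTop atTop) : ∃ C : Set ℕ, (Univl C ∧ WeylZ ψ C) ∧
    Tendsto (fun N : ℕ => (Nat.card {c : ℕ | c < N ∧ c ∉ C} : ℝ) / N) atTop (𝓝 0) ∧
    Tendsto (fun N : ℕ => (Nat.card {c : ℕ | c < N ∧ c.Prime ∧ c ∉ C} : ℝ) /
      Nat.card {c : ℕ | c < N ∧ c.Prime}) atTop (𝓝 0) := by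
  classical
  obtain ⟨C₁, -, h1, h2⟩ := exists_univl hψ reg_id (by norm_num : (0 : ℝ) ≤ 2) bt_id
    tendsto_natCast_atTop_atTop
  obtain ⟨K, hK, hP⟩ := bt_primes
  obtain ⟨C₂, -, h3, h4⟩ := exists_univl hψ reg_GP hK hP GP_tendsto
  refine ⟨C₁ ∪ C₂, ⟨h1.1.union h3.1, h1.2.union h3.2⟩, ?_, ?_⟩
  · refine squeeze_zero (fun N => by positivity) (fun N => ?_) h2
    apply div_le_div_of_nonneg_right _ (Nat.cast_nonneg N)
    rw [card_setOf, card_setOf]
    have : (range N).filter (fun c => c ∉ C₁ ∪ C₂) ⊆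
        (range N).filter (fun c => c ∈ Set.univ ∧ c ∉ C₁) := by
      intro c hc
      rw [mem_filter] at hc ⊢
      exact ⟨hc.1, Set.mem_univ _, fun h => hc.2 (Or.inl h)⟩
    exact_mod_cast card_le_card this
  · have h5 := h4.const_mul 20
    rw [mul_zero] at h5
    refine squeeze_zero' (Eventually.of_forall fun N => by positivity) ?_ h5
    filter_upwards [eventually_ge_atTop 3] with N hN
    have h6 := GP_le_count hN
    have hGP : 0 < GP N := by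
      unfold GP
      have h7 : (3 : ℝ) ≤ N := by exact_mod_cast hN
      have h8 : 0 ≤ Real.log N := Real.log_nonneg (by linarith)
      positivity
    have hcnt : (0 : ℝ) < Nat.card {l : ℕ | l < N ∧ l.Prime} := by linarith
    rw [← mul_div_assoc, div_le_div_iff₀ hcnt hGP]
    have h9 : (Nat.card {c : ℕ | c < N ∧ c.Prime ∧ c ∉ C₁ ∪ C₂} : ℝ) ≤
        Nat.card {c : ℕ | c < N ∧ c ∈ {l : ℕ | l.Prime} ∧ c ∉ C₂} := by
      rw [card_setOf N (fun c => c.Prime ∧ c ∉ C₁ ∪ C₂),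
        card_setOf N (fun c => c ∈ {l : ℕ | l.Prime} ∧ c ∉ C₂)]
      have : (range N).filter (fun c => c.Prime ∧ c ∉ C₁ ∪ C₂) ⊆
          (range N).filter (fun c => c ∈ {l : ℕ | l.Prime} ∧ c ∉ C₂) := by
        intro c hc
        rw [mem_filter] at hc ⊢
        exact ⟨hc.1, hc.2.1, fun h => hc.2.2 (Or.inr h)⟩
      exact_mod_cast card_le_card this
    have h10 : (0 : ℝ) ≤ Nat.card {c : ℕ | c < N ∧ c ∈ {l : ℕ | l.Prime} ∧ c ∉ C₂} :=
      Nat.cast_nonneg _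
    calc (Nat.card {c : ℕ | c < N ∧ c.Prime ∧ c ∉ C₁ ∪ C₂} : ℝ) * GP N ≤
          (Nat.card {c : ℕ | c < N ∧ c ∈ {l : ℕ | l.Prime} ∧ c ∉ C₂} : ℝ) * GP N :=
          mul_le_mul_of_nonneg_right h9 hGP.le
      _ ≤ (Nat.card {c : ℕ | c < N ∧ c ∈ {l : ℕ | l.Prime} ∧ c ∉ C₂} : ℝ) *
            (20 * Nat.card {l : ℕ | l < N ∧ l.Prime}) := mul_le_mul_of_nonneg_left h6 h10
      _ = _ := (mul_left_comm _ _ _).trans (mul_assoc _ _ _).symm

end Pool.Agent.TH463.US
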