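import Pool.Agent.TH463.US.Grow
import Pool.Agent.TH463.US.Dense

/-!
The universal set of multipliers for the invariant sets.
-/

set_option autoImplicit false

open Finset Filter Topology

namespace Pool.Agent.TH463.US

open Pool.Agent.H769R3 (X)
open Pool.Agent.TH463.UP (D Near nx lt_nx)
open Pool.Agent.TH463.UQ (del del_pos BW Su geom_tail)
open Pool.Agent.TH463.UR (BT Reg sh)

lemma sum_half_le {ι : Type} [Encodable ι] (J : Finset ι) :
    ∑ i ∈ J, (1 / 2 : ℝ) ^ (Encodable.encode i + 1) ≤ 1 := by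
  classical
  have e1 : ∑ i ∈ J, (1 / 2 : ℝ) ^ (Encodable.encode i + 1) =
      ∑ n ∈ J.image Encodable.encode, (1 / 2 : ℝ) ^ (n + 1) := by
    rw [sum_image (Encodable.encode_injective.injOn)]
  have e2 : J.image Encodable.encode ⊆ range ((J.image Encodable.encode).sup id + 1) := by
    intro n hn
    rw [mem_range]
    exact Nat.lt_succ_of_le (le_sup (f := id) hn)
  rw [e1]
  refine (sum_le_sum_of_subset_of_nonneg e2 fun n _ _ => by positivity).trans ?_
  set T := (J.image Encodable.encode).sup id + 1 with hT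
  have h7 : ∑ j ∈ range T, (1 / 2 : ℝ) ^ (j + 1) = (∑ j ∈ range T, (1 / 2 : ℝ) ^ j) * (1 / 2) := by
    rw [sum_mul]
    apply sum_congr rfl
    intro j _
    rw [pow_succ]
  rw [h7, geom_sum_eq (by norm_num)]
  have h8 : (0 : ℝ) ≤ (1 / 2) ^ T := by positivity
  have h9 : ((1 / 2 : ℝ) ^ T - 1) / (1 / 2 - 1) = 2 * (1 - (1 / 2) ^ T) := by
    field_simp
    ring
  rw [h9]
  linarith

open Classical in
/-- the dyadic decomposition -/
lemma es_bound {P : Set ℕ} {G : ℕ → ℝ} {η K₁ K₂ : ℝ} (hη : 0 ≤ η) {J : ℕ}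
    (hG1 : ∀ N : ℕ, 1 ≤ N → ∑ i ∈ range (Nat.log 2 N + 1), G (2 ^ (i + 1)) ≤ K₁ * G N)
    (hK₂ : 0 ≤ K₂) (hG2 : ∀ N M : ℕ, 1 ≤ N → M ≤ J * N → G M ≤ K₂ * G N) {E : ℕ → Set ℕ}
    (H : ∀ a < J, ∀ N : ℕ, (((range N).filter (fun h => h ∈ sh P a 0 ∧ h ∈ E N)).card : ℝ) ≤ η * G N)
    (N : ℕ) (hN : 1 ≤ N) :
    (((range N).filter (fun c => c ∈ P ∧ ∃ a < J, (a + 1) * c ∈ E (J * nx c))).card : ℝ) ≤
      η * (J * K₂ * (K₁ * G N)) := by
  have hsub : (range N).filter (fun c => c ∈ P ∧ ∃ a < J, (a + 1) * c ∈ E (J * nx c)) ⊆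
      (range J).biUnion fun a => (range (Nat.log 2 N + 1)).biUnion fun i =>
      (range N).filter (fun c => c ∈ P ∧ c < 2 ^ (i + 1) ∧ (a + 1) * c ∈ E (J * 2 ^ (i + 1))) := by
    intro c hc
    rw [mem_filter, mem_range] at hc
    obtain ⟨hcN, hcP, a, ha, hcE⟩ := hc
    rw [mem_biUnion]
    refine ⟨a, mem_range.2 ha, ?_⟩
    rw [mem_biUnion]
    refine ⟨Nat.log 2 c, ?_, ?_⟩
    · rw [mem_range]
      have := Nat.log_mono_right (b := 2) hcN.le
      omega
    · rw [mem_filter, mem_range]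
      have e1 : nx c = 2 ^ (Nat.log 2 c + 1) := rfl
      have h4 := lt_nx c
      rw [e1] at hcE h4
      exact ⟨hcN, hcP, h4, hcE⟩
  have h1 : (((range N).filter (fun c => c ∈ P ∧ ∃ a < J, (a + 1) * c ∈ E (J * nx c))).card : ℝ) ≤
      ∑ a ∈ range J, ∑ i ∈ range (Nat.log 2 N + 1),
        (((range N).filter (fun c => c ∈ P ∧ c < 2 ^ (i + 1) ∧
          (a + 1) * c ∈ E (J * 2 ^ (i + 1)))).card : ℝ) := by
    have h2 := (card_le_card hsub).trans card_biUnion_le
    refine le_trans (Nat.cast_le.2 h2) ?_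
    push_cast
    refine sum_le_sum fun a _ => ?_
    exact_mod_cast card_biUnion_le
  have h2 : ∀ a ∈ range J, ∀ i ∈ range (Nat.log 2 N + 1),
      (((range N).filter (fun c => c ∈ P ∧ c < 2 ^ (i + 1) ∧
          (a + 1) * c ∈ E (J * 2 ^ (i + 1)))).card : ℝ) ≤ η * (K₂ * G (2 ^ (i + 1))) := by
    intro a ha i _
    rw [mem_range] at ha
    have h3 : ((range N).filter (fun c => c ∈ P ∧ c < 2 ^ (i + 1) ∧
          (a + 1) * c ∈ E (J * 2 ^ (i + 1)))).card ≤
        ((range (J * 2 ^ (i + 1))).filter (fun h => h ∈ sh P a 0 ∧ h ∈ E (J * 2 ^ (i + 1)))).card := by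
      apply card_le_card_of_injOn (fun c : ℕ => (a + 1) * c)
      · intro c hc
        rw [mem_coe, mem_filter, mem_range] at hc ⊢
        obtain ⟨-, hc1, hc2, hc3⟩ := hc
        refine ⟨?_, ⟨c, hc1, by push_cast; ring⟩, hc3⟩
        calc (a + 1) * c < (a + 1) * 2 ^ (i + 1) := Nat.mul_lt_mul_of_pos_left hc2 (Nat.succ_pos a)
          _ ≤ J * 2 ^ (i + 1) := Nat.mul_le_mul_right _ ha
      · intro c _ c' _ h
        exact Nat.eq_of_mul_eq_mul_left (Nat.succ_pos a) h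
    have h4 : (((range N).filter (fun c => c ∈ P ∧ c < 2 ^ (i + 1) ∧
          (a + 1) * c ∈ E (J * 2 ^ (i + 1)))).card : ℝ) ≤
        (((range (J * 2 ^ (i + 1))).filter
          (fun h => h ∈ sh P a 0 ∧ h ∈ E (J * 2 ^ (i + 1)))).card : ℝ) := by exact_mod_cast h3
    refine h4.trans ((H a ha _).trans ?_)
    exact mul_le_mul_of_nonneg_left (hG2 _ _ Nat.one_le_two_pow le_rfl) hη
  refine h1.trans ((sum_le_sum fun a ha => sum_le_sum fun i hi => h2 a ha i hi).trans ?_)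
  rw [sum_const, card_range, nsmul_eq_mul]
  have h3 : ∑ i ∈ range (Nat.log 2 N + 1), η * (K₂ * G (2 ^ (i + 1))) ≤ η * (K₂ * (K₁ * G N)) := by
    rw [← mul_sum, ← mul_sum]
    exact mul_le_mul_of_nonneg_left (mul_le_mul_of_nonneg_left (hG1 N hN) hK₂) hη
  refine (mul_le_mul_of_nonneg_left h3 (Nat.cast_nonneg J)).trans (le_of_eq ?_)
  ring

/-- the indices: the base, the tolerance, the number of frequencies, the length, and the words -/
abbrev Idx : Type := ℕ × ℕ × ℕ × ℕ × Finset ℕ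

/-- the meaningful indices -/
def Valid (i : Idx) : Prop := 2 ≤ i.1 ∧ 1 ≤ i.2.2.2.1 ∧ i.2.2.2.2.Nonempty

/-- the exceptional multipliers for an index -/
def EI (i : Idx) (β N : ℕ) : Set ℕ := Ex i.1 i.2.2.2.1 i.2.2.2.2 (del i.2.1) β N

/-- the level for an index -/
def LI (i : Idx) (β : ℕ) : Prop := Level i.1 i.2.2.2.1 (del i.2.1) i.2.2.1 β

open Classical in
/-- the universal set -/
theorem exists_set {P : Set ℕ} {G : ℕ → ℝ} {K : ℝ} {e : ℕ} (hG : Reg G) (hK : 0 ≤ K)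
    (hP : BT P G K e) {η : ℝ} (hη : 0 < η) : ∃ (C : Set ℕ) (b : Idx → ℕ), C ⊆ P ∧
    (∀ N : ℕ, (((range N).filter fun c => c ∈ P ∧ c ∉ C).card : ℝ) ≤ η * G N) ∧
    ∀ i : Idx, Valid i → LI i (b i) ∧
      ∀ c ∈ C, ∀ a < i.2.2.1, (a + 1) * c ∉ EI i (b i) (i.2.2.1 * nx c) := by
  obtain ⟨K₁, hK₁, hG₁⟩ := hG.sum
  have hmul : ∀ i : Idx, ∃ K₂ : ℝ, 0 ≤ K₂ ∧ ∀ N M : ℕ, 1 ≤ N →
      M ≤ i.2.2.1 * N → G M ≤ K₂ * G N := fun i => hG.mul _
  choose K₂ hK₂ hG₂ using hmul
  have hkey : ∀ i : Idx, ∃ β₀ : ℕ, Valid i → LI i β₀ ∧ ∀ a < i.2.2.1, ∀ N : ℕ,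
      (((range N).filter (fun h => h ∈ sh P a 0 ∧ h ∈ EI i β₀ N)).card : ℝ) ≤
        (η * (1 / 2) ^ (Encodable.encode i + 1) / (i.2.2.1 * K₂ i * K₁ + 1)) * G N := by
    intro i
    by_cases hv : Valid i
    · have hpos : 0 < η * (1 / 2) ^ (Encodable.encode i + 1) / (i.2.2.1 * K₂ i * K₁ + 1) := by
        have := hK₂ i
        positivity
      obtain ⟨β₀, h1, h2⟩ := exc_bound hv.1 hv.2.1 hv.2.2 (del_pos i.2.1) i.2.2.1 hG hK hP hpos
      exact ⟨β₀, fun _ => ⟨h1, h2⟩⟩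
    · exact ⟨0, fun h => absurd h hv⟩
  choose b hb using hkey
  set Q : Idx → ℕ → Prop := fun i c => Valid i ∧
    ∃ a < i.2.2.1, (a + 1) * c ∈ EI i (b i) (i.2.2.1 * nx c) with hQ
  refine ⟨{c | c ∈ P ∧ ∀ i, ¬ Q i c}, b, fun c hc => hc.1, ?_, ?_⟩
  · intro N
    rcases Nat.eq_zero_or_pos N with hN | hN
    · rw [hN]
      simp only [range_zero, filter_empty, card_empty, Nat.cast_zero]
      exact mul_nonneg hη.le (hG.nonneg _)
    set Bad := (range N).filter fun c => c ∈ P ∧ c ∉ {c | c ∈ P ∧ ∀ i, ¬ Q i c} with hBad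
    have hex : ∀ c ∈ Bad, ∃ i, Q i c := by
      intro c hc
      obtain ⟨h0, h1⟩ := (mem_filter.1 hc).2
      by_contra hcon
      push Not at hcon
      exact h1 ⟨h0, hcon⟩
    choose! ι hι using hex
    set J : Finset Idx := Bad.image ι with hJ
    have hsub : Bad ⊆ J.biUnion fun i => (range N).filter fun c => c ∈ P ∧ Q i c := by
      intro c hc
      exact mem_biUnion.2 ⟨ι c, mem_image_of_mem ι hc,
        mem_filter.2 ⟨(mem_filter.1 hc).1, (mem_filter.1 hc).2.1, hι c hc⟩⟩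
    have h1 : (Bad.card : ℝ) ≤ ∑ i ∈ J, (((range N).filter fun c => c ∈ P ∧ Q i c).card : ℝ) := by
      exact_mod_cast (card_le_card hsub).trans card_biUnion_le
    have hGN := hG.nonneg N
    have h2 : ∀ i ∈ J, (((range N).filter fun c => c ∈ P ∧ Q i c).card : ℝ) ≤
        (η * G N) * (1 / 2) ^ (Encodable.encode i + 1) := by
      intro i _
      by_cases hv : Valid i
      · have hK₂i := hK₂ i
        have hpos : 0 ≤ η * (1 / 2) ^ (Encodable.encode i + 1) / (i.2.2.1 * K₂ i * K₁ + 1) := by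
          positivity
        have h3 := es_bound (P := P) hpos hG₁ hK₂i (hG₂ i) (hb i hv).2 N hN
        have h4 : (((range N).filter fun c => c ∈ P ∧ Q i c).card : ℝ) ≤
            (((range N).filter (fun c => c ∈ P ∧ ∃ a < i.2.2.1,
              (a + 1) * c ∈ EI i (b i) (i.2.2.1 * nx c))).card : ℝ) := by
          have : ((range N).filter fun c => c ∈ P ∧ Q i c) ⊆
            ((range N).filter (fun c => c ∈ P ∧ ∃ a < i.2.2.1,
              (a + 1) * c ∈ EI i (b i) (i.2.2.1 * nx c))) := by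
            intro c hc
            rw [mem_filter] at hc ⊢
            exact ⟨hc.1, hc.2.1, hc.2.2.2⟩
          exact_mod_cast card_le_card this
        refine h4.trans (h3.trans ?_)
        calc η * (1 / 2) ^ (Encodable.encode i + 1) / (i.2.2.1 * K₂ i * K₁ + 1) *
              (i.2.2.1 * K₂ i * (K₁ * G N)) =
              (η * G N) * (1 / 2) ^ (Encodable.encode i + 1) *
                (i.2.2.1 * K₂ i * K₁ / (i.2.2.1 * K₂ i * K₁ + 1)) := by
              ring
          _ ≤ (η * G N) * (1 / 2) ^ (Encodable.encode i + 1) * 1 := by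
              apply mul_le_mul_of_nonneg_left _ (by positivity)
              rw [div_le_one (by positivity)]
              linarith
          _ = _ := mul_one _
      · have : (range N).filter (fun c => c ∈ P ∧ Q i c) = ∅ := by
          rw [filter_eq_empty_iff]
          intro c _ hc
          exact hv hc.2.1
        rw [this]
        simp only [card_empty, Nat.cast_zero]
        positivity
    refine le_trans (le_of_eq (by rw [hBad]; congr!)) (h1.trans ((sum_le_sum h2).trans ?_))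
    rw [← mul_sum]
    calc η * G N * ∑ i ∈ J, (1 / 2 : ℝ) ^ (Encodable.encode i + 1) ≤ η * G N * 1 :=
          mul_le_mul_of_nonneg_left (sum_half_le J) (by positivity)
      _ = η * G N := mul_one _
  · intro i hv
    exact ⟨(hb i hv).1, fun c hc a ha hcon => hc.2 i ⟨hv, a, ha, hcon⟩⟩

open Classical in
/-- the diagonal set -/
theorem exists_diag (F : ℕ → ℕ → ℕ) {P : Set ℕ} {G : ℕ → ℝ} {K : ℝ} {e : ℕ} (hG : Reg G)
    (hK : 0 ≤ K) (hP : BT P G K e) : ∃ (C : Set ℕ) (b : ℕ → Idx → ℕ) (R : ℕ → ℕ), C ⊆ P ∧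
    (∀ r₀ : ℕ, ∃ m₀ : ℕ, ∀ N : ℕ, (((range N).filter fun c => c ∈ P ∧ c ∉ C).card : ℝ) ≤
      m₀ + 2 * (1 / 2) ^ r₀ * G N) ∧
    (∀ r i, Valid i → LI i (b r i)) ∧
    ∀ i : Idx, Valid i → ∃ m₀ : ℕ, ∀ c ∈ C, m₀ ≤ c → F i.1 (b (R c) i) ≤ c ∧
      ∀ a < i.2.2.1, (a + 1) * c ∉ EI i (b (R c) i) (i.2.2.1 * nx c) := by
  have h := fun r : ℕ => exists_set hG hK hP (show (0 : ℝ) < (1 / 2) ^ r by positivity)
  choose C b hsub hcard hval using h
  set n : ℕ → ℕ := fun r => ∑ e ∈ range (r + 1), ((Encodable.decode e : Option Idx).elim 0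
    fun i => F i.1 (b r i)) with hn
  have hnle : ∀ (r : ℕ) (i : Idx), Encodable.encode i ≤ r → F i.1 (b r i) ≤ n r := by
    intro r i hi
    rw [hn]
    have h1 := single_le_sum (f := fun e => ((Encodable.decode e : Option Idx).elim 0
      fun i => F i.1 (b r i))) (fun e _ => Nat.zero_le _)
      (mem_range.2 (Nat.lt_succ_of_le hi) : Encodable.encode i ∈ range (r + 1))
    simp only [Encodable.encodek, Option.elim_some] at h1
    exact h1
  set R : ℕ → ℕ := fun c => Nat.findGreatest (fun r => n r ≤ c) c with hR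
  refine ⟨{c | c ∈ P ∧ c ∈ C (R c)}, b, R, fun c hc => hc.1, ?_, fun r i hi => (hval r i hi).1, ?_⟩
  · intro r₀
    refine ⟨max (n r₀) r₀, fun N => ?_⟩
    have hGN := hG.nonneg N
    have hsub2 : (range N).filter (fun c => c ∈ P ∧ c ∉ {c | c ∈ P ∧ c ∈ C (R c)}) ⊆
        range (max (n r₀) r₀) ∪ (Finset.Ico r₀ (r₀ + N)).biUnion fun r =>
          (range N).filter fun c => c ∈ P ∧ c ∉ C r := by
      intro c hc
      rw [mem_filter, mem_range] at hc
      obtain ⟨hcN, hcP, hcC⟩ := hc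
      rw [mem_union]
      rcases lt_or_ge c (max (n r₀) r₀) with h | h
      · left
        exact mem_range.2 h
      · right
        rw [mem_biUnion]
        have h1 : r₀ ≤ R c := Nat.le_findGreatest ((le_max_right _ _).trans h)
          ((le_max_left _ _).trans h)
        have h2 : R c ≤ c := Nat.findGreatest_le c
        refine ⟨R c, mem_Ico.2 ⟨h1, by omega⟩, mem_filter.2 ⟨mem_range.2 hcN, hcP, fun hcon => ?_⟩⟩
        exact hcC ⟨hcP, hcon⟩
    have h1 := (card_le_card hsub2).trans (card_union_le _ _)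
    rw [card_range] at h1
    have h2 : (((Finset.Ico r₀ (r₀ + N)).biUnion fun r =>
          (range N).filter fun c => c ∈ P ∧ c ∉ C r).card : ℝ) ≤ 2 * (1 / 2) ^ r₀ * G N := by
      have h3 : (((Finset.Ico r₀ (r₀ + N)).biUnion fun r =>
          (range N).filter fun c => c ∈ P ∧ c ∉ C r).card : ℝ) ≤
          ∑ r ∈ Finset.Ico r₀ (r₀ + N), (((range N).filter fun c => c ∈ P ∧ c ∉ C r).card : ℝ) := by
        exact_mod_cast card_biUnion_le
      refine h3.trans ((sum_le_sum fun r _ => hcard r N).trans ?_)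
      rw [← sum_mul]
      apply mul_le_mul_of_nonneg_right _ hGN
      refine (geom_tail (by norm_num) (by norm_num) r₀ N).trans (le_of_eq ?_)
      ring
    have h4 : (((range N).filter (fun c => c ∈ P ∧ c ∉ {c | c ∈ P ∧ c ∈ C (R c)})).card : ℝ) ≤
        ((max (n r₀) r₀ : ℕ) : ℝ) + (((Finset.Ico r₀ (r₀ + N)).biUnion fun r =>
          (range N).filter fun c => c ∈ P ∧ c ∉ C r).card : ℝ) := by exact_mod_cast h1
    refine le_trans (le_of_eq ?_) (h4.trans (by linarith))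
    congr!
  · intro i hi
    refine ⟨max (n (Encodable.encode i)) (Encodable.encode i), fun c hc hcm => ⟨?_, ?_⟩⟩
    · have h1 : Encodable.encode i ≤ R c := Nat.le_findGreatest ((le_max_right _ _).trans hcm)
          ((le_max_left _ _).trans hcm)
      have h2 : n (R c) ≤ c := Nat.findGreatest_spec (P := fun r => n r ≤ c)
        ((le_max_right _ _).trans hcm) ((le_max_left _ _).trans hcm)
      exact (hnle _ _ h1).trans h2
    · exact (hval (R c) i hi).2 c hc.2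

/-- the images of an infinite invariant set become dense along the universal set -/
theorem eps_dense {F : ℕ → ℕ → ℕ} (hF : ∀ p β, FF p β ≤ F p β) {C : Set ℕ} {b : ℕ → Idx → ℕ}
    {R : ℕ → ℕ}
    (hL : ∀ r i, Valid i → LI i (b r i))
    (hC : ∀ i : Idx, Valid i → ∃ m₀ : ℕ, ∀ c ∈ C, m₀ ≤ c → F i.1 (b (R c) i) ≤ c ∧
      ∀ a < i.2.2.1, (a + 1) * c ∉ EI i (b (R c) i) (i.2.2.1 * nx c))
    {ε : ℝ} (hε : 0 < ε) : ∃ M : ℕ, ∀ p : ℕ, 2 ≤ p → ∀ K : Set X, K.Infinite →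
      (∀ x ∈ K, p • x ∈ K) → ∃ c₀ : ℕ, ∀ c ∈ C, c₀ ≤ c → ∃ x ∈ K, ∀ y : X, ∃ j : ℕ,
        p ^ j ≤ M * c ∧ ‖c • ((p ^ j : ℕ) • x) - y‖ < ε := by
  obtain ⟨J, m, hJ, hd⟩ := dens hε
  have hδ := del_pos m
  refine ⟨J * 2, fun p hp K hinf hinv => ?_⟩
  obtain ⟨k, hk, hlog⟩ := exists_gr hp hinf.nonempty (show 0 < del m ^ 2 / 128 by positivity)
  have hne : (wd p k K).Nonempty := by
    obtain ⟨x, hx⟩ := hinf.nonempty
    exact ⟨_, mem_wd hp k hx⟩
  have hV : Valid (p, m, J, k, wd p k K) := ⟨hp, hk, hne⟩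
  obtain ⟨m₀, hm₀⟩ := hC _ hV
  obtain ⟨N₀, hN₀⟩ := good_point hp hinf hinv hδ (J := J) hk hlog
  refine ⟨max (max m₀ N₀) 1, fun c hc hcN => ?_⟩
  obtain ⟨h1, h2⟩ := hm₀ c hc ((le_max_left _ _).trans ((le_max_left _ _).trans hcN))
  set β₁ := b (R c) (p, m, J, k, wd p k K) with hβ₁
  have hlev : Level p k (del m) J β₁ := hL (R c) _ hV
  have hnx := lt_nx c
  have hc1 : 1 ≤ c := (le_max_right _ _).trans hcN
  have hcJ : c ≤ J * nx c := by
    have : nx c ≤ J * nx c := Nat.le_mul_of_pos_left _ hJ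
    omega
  have hN : N₀ ≤ J * nx c :=
    ((le_max_right _ _).trans ((le_max_left _ _).trans hcN)).trans hcJ
  have h1' : FF p β₁ ≤ J * nx c := (hF p β₁).trans (le_trans h1 hcJ)
  obtain ⟨x, hxK, hxN, hxB⟩ := hN₀ β₁ hlev (J * nx c) hN h1' (fun a => (a + 1) * c) h2
  have hNpos : 0 < J * nx c := by omega
  rcases tri hp hδ hlev.pi hNpos x with h | ⟨β, hβ, hβN, h⟩
  · exact absurd h hxN
  · have hβ1 := (mem_Ico.1 hβ).1
    refine ⟨x, hxK, fun y => ?_⟩
    obtain ⟨j, hj, hlt⟩ := hd p c β x (hlev.one.trans hβ1) (fun a ha => by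
      refine (h ((a + 1) * c) ?_).resolve_right (hxB β hβ1 a ha)
      calc (a + 1) * c < (a + 1) * nx c := Nat.mul_lt_mul_of_pos_left hnx (Nat.succ_pos a)
        _ ≤ J * nx c := Nat.mul_le_mul_right _ ha) y
    refine ⟨j, ?_, hlt⟩
    have h3 : p ^ j ≤ p ^ β := Nat.pow_le_pow_right (by omega) hj.le
    have h4 : nx c ≤ 2 * c := by
      have h5 : 2 ^ Nat.log 2 c ≤ c := Nat.pow_log_le_self 2 (by omega)
      change 2 ^ (Nat.log 2 c + 1) ≤ 2 * c
      rw [pow_succ]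
      omega
    calc p ^ j ≤ J * nx c := h3.trans hβN
      _ ≤ J * (2 * c) := Nat.mul_le_mul_left _ h4
      _ = J * 2 * c := by ring

/-- the points within `1 / c` of a point of order at most `Q` -/
def Cl (Q c : ℕ) : Set X := {x | ∃ q : ℕ, 0 < q ∧ q ≤ Q ∧ ∃ z : X, q • z = 0 ∧ ‖x - z‖ ≤ 1 / c}

open Classical in
/-- the number of times near the points of small order -/
noncomputable def ncl (p Q c n : ℕ) (x : X) : ℕ :=
  ((range n).filter fun j => (p ^ j : ℕ) • x ∈ Cl Q c).card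

open Classical in
lemma ncl_add (p Q c n m : ℕ) (x : X) :
    ncl p Q c (n + m) x = ncl p Q c n x + ncl p Q c m ((p ^ n : ℕ) • x) := by
  have e : ∀ (n : ℕ) (x : X), ncl p Q c n x =
      ∑ j ∈ range n, if (p ^ j : ℕ) • x ∈ Cl Q c then 1 else 0 := by
    intro n x
    unfold ncl
    rw [card_filter]
  rw [e, e, e, sum_range_add]
  congr 1
  apply sum_congr rfl
  intro j _
  have e' : (p ^ j : ℕ) • ((p ^ n : ℕ) • x) = (p ^ (n + j) : ℕ) • x := by
    rw [← mul_smul, ← pow_add, add_comm]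
  rw [e']

/-- the stopping time argument on an invariant set -/
lemma stop_K {p Q c h : ℕ} {K : Set X} (hinv : ∀ x ∈ K, p • x ∈ K) {δ : ℝ} (hδ : 0 ≤ δ) (L : ℕ)
    (H : ∀ x ∈ K, ∃ τ : ℕ, 1 ≤ τ ∧ τ ≤ L ∧ ‖Su p h τ x‖ ≤ δ * τ + ncl p Q c τ x) :
    ∀ n : ℕ, ∀ x ∈ K, ‖Su p h n x‖ ≤ δ * n + ncl p Q c n x + L := by
  intro n
  induction n using Nat.strong_induction_on with
  | _ n ih =>
    intro x hx
    by_cases hn : n ≤ L
    · have h1 := UQ.norm_Su_le p h n x
      have h2 : (n : ℝ) ≤ L := by exact_mod_cast hn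
      have h3 : (0 : ℝ) ≤ ncl p Q c n x := Nat.cast_nonneg _
      have h4 : 0 ≤ δ * n := by positivity
      linarith
    · obtain ⟨τ, h1, h2, h3⟩ := H x hx
      obtain ⟨m, hm⟩ : ∃ m, n = τ + m := ⟨n - τ, by omega⟩
      have h4 := ih m (by omega) ((p ^ τ : ℕ) • x) (pow_mem hinv τ x hx)
      have h5 := norm_add_le (Su p h τ x) (Su p h m ((p ^ τ : ℕ) • x))
      rw [hm, UQ.Su_add, ncl_add]
      push_cast
      linarith

/-- for an invariant set of zero entropy the exponential sums of all points are small -/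
theorem zero_weyl {F : ℕ → ℕ → ℕ} {C : Set ℕ} {b : ℕ → Idx → ℕ}
    {R : ℕ → ℕ} {ψ : ℕ → ℕ} (hF : ∀ p β c, F p β ≤ c → p ^ β ≤ ψ c)
    (hL : ∀ r i, Valid i → LI i (b r i))
    (hC : ∀ i : Idx, Valid i → ∃ m₀ : ℕ, ∀ c ∈ C, m₀ ≤ c → F i.1 (b (R c) i) ≤ c ∧
      ∀ a < i.2.2.1, (a + 1) * c ∉ EI i (b (R c) i) (i.2.2.1 * nx c))
    {δ : ℝ} (hδ : 0 < δ) (J : ℕ) : ∀ p : ℕ, 2 ≤ p → ∀ K : Set X, K.Nonempty →
      (∀ x ∈ K, p • x ∈ K) → gr p K = 0 → ∃ c₀ : ℕ, ∀ c ∈ C, c₀ ≤ c → ∀ x ∈ K, ∀ n : ℕ,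
        ∀ a < J, ‖Su p ((a + 1) * c) n x‖ ≤ δ * n + ncl p (ψ c) c n x + Nat.log p (2 * J * c) := by
  intro p hp K hne hinv hgr
  obtain ⟨m, hm⟩ := exists_nat_one_div_lt (show 0 < δ / 2 by positivity)
  have hm' : 2 * del m ≤ δ := by
    have : del m < δ / 2 := hm
    linarith
  have hδm := del_pos m
  obtain ⟨k, hk, hlog⟩ := exists_gr hp hne (show 0 < del m ^ 2 / 128 by positivity)
  have hne' : (wd p k K).Nonempty := by
    obtain ⟨x, hx⟩ := hne
    exact ⟨_, mem_wd hp k hx⟩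
  have hV : Valid (p, m, J, k, wd p k K) := ⟨hp, hk, hne'⟩
  obtain ⟨m₀, hm₀⟩ := hC _ hV
  refine ⟨max m₀ p, fun c hc hcN x hxK n a ha => ?_⟩
  obtain ⟨h1, h2⟩ := hm₀ c hc ((le_max_left _ _).trans hcN)
  set β₁ := b (R c) (p, m, J, k, wd p k K) with hβ₁
  have hlev : Level p k (del m) J β₁ := hL (R c) _ hV
  have hnx := lt_nx c
  have hcp : p ≤ c := (le_max_right _ _).trans hcN
  have hc1 : 1 ≤ c := by omega
  have hJ : 0 < J := by omega
  have hcJ : c ≤ J * nx c := by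
    have : nx c ≤ J * nx c := Nat.le_mul_of_pos_left _ hJ
    omega
  have hgr' : gr p K ≤ del m ^ 2 / 128 := by
    rw [hgr]
    positivity
  have hNpos : 0 < J * nx c := by omega
  have hcR : (0 : ℝ) < c := by exact_mod_cast hc1
  have hnx2 : J * nx c ≤ 2 * J * c := by
    have h4 : nx c ≤ 2 * c := by
      have h5 : 2 ^ Nat.log 2 c ≤ c := Nat.pow_log_le_self 2 (by omega)
      change 2 ^ (Nat.log 2 c + 1) ≤ 2 * c
      rw [pow_succ]
      omega
    calc J * nx c ≤ J * (2 * c) := Nat.mul_le_mul_left _ h4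
      _ = 2 * J * c := by ring
  have hp1 : 1 < p := by omega
  refine stop_K hinv hδ.le (Nat.log p (2 * J * c)) (fun z hz => ?_) n x hxK
  have hzB := no_bad hp hne hinv hδm hk hlog hgr' hlev (H := fun a => (a + 1) * c) h2 z hz
  rcases tri hp hδm hlev.pi hNpos z with h | ⟨β, hβ, hβN, h⟩
  · refine ⟨1, le_rfl, ?_, ?_⟩
    · apply Nat.le_log_of_pow_le hp1
      rw [pow_one]
      calc p ≤ c := hcp
        _ ≤ 2 * J * c := Nat.le_mul_of_pos_left _ (by omega)
    · have hz2 : z ∈ Cl (ψ c) c := by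
        unfold Near at h
        rw [(UP.tor_finite _).isCompact.cthickening_eq_biUnion_closedBall (by positivity)] at h
        simp only [Set.mem_iUnion] at h
        obtain ⟨w, ⟨q, hq1, hq2, hq3⟩, hxz⟩ := h
        rw [Metric.mem_closedBall, dist_eq_norm] at hxz
        refine ⟨q, hq1, hq2.le.trans (hF p β₁ c h1), w, hq3, hxz.trans ?_⟩
        apply one_div_le_one_div_of_le hcR
        have : (c : ℝ) ≤ ((J * nx c : ℕ) : ℝ) := by exact_mod_cast hcJ
        linarith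
      have hn1 : ncl p (ψ c) c 1 z = 1 := by
        classical
        unfold ncl
        rw [filter_true_of_mem]
        · simp
        · intro j hj
          have : j = 0 := by
            have := mem_range.1 hj
            omega
          rw [this, pow_zero, one_smul]
          exact hz2
      rw [hn1]
      have := UQ.norm_Su_le p ((a + 1) * c) 1 z
      push_cast at this ⊢
      linarith
  · have hβ1 := (mem_Ico.1 hβ).1
    refine ⟨β, hlev.one.trans hβ1, Nat.le_log_of_pow_le hp1 (hβN.trans hnx2), ?_⟩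
    have h3 := (h ((a + 1) * c) (by
      calc (a + 1) * c < (a + 1) * nx c := Nat.mul_lt_mul_of_pos_left hnx (Nat.succ_pos a)
        _ ≤ J * nx c := Nat.mul_le_mul_right _ ha)).resolve_right (hzB β hβ1 a ha)
    have h4 : 2 * del m * β ≤ δ * β := mul_le_mul_of_nonneg_right hm' (Nat.cast_nonneg _)
    have h5 : (0 : ℝ) ≤ ncl p (ψ c) c β z := Nat.cast_nonneg _
    linarith

end Pool.Agent.TH463.US
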