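import Pool.Agent.TH463.UR.Shift

/-!
Words which are concatenations of words from a given finite set, and the multipliers for which too
many of them are bad.
-/

set_option autoImplicit false

open Finset Filter Topology

namespace Pool.Agent.TH463.US

open Pool.Agent.H769R3 (X)
open Pool.Agent.TH463.UP (D D_lt D_add cnt Appr BadPair cP)
open Pool.Agent.TH463.UQ (BW BW_empty tends geom_tail)
open Pool.Agent.TH463.UR (BT pol pol_nonneg card_bad exists_pol)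

/-- the concatenations of `q` words from `A` and a word of length `m` -/
def SS (p k m : ℕ) (A : Finset ℕ) : ℕ → Finset ℕ
  | 0 => range (p ^ m)
  | q + 1 => (A ×ˢ SS p k m A q).image fun a => a.1 * p ^ (k * q + m) + a.2

lemma card_SS (p k m : ℕ) (A : Finset ℕ) (q : ℕ) : (SS p k m A q).card ≤ A.card ^ q * p ^ m := by
  induction q with
  | zero => simp [SS]
  | succ q ih =>
    unfold SS
    refine card_image_le.trans ?_
    rw [card_product, pow_succ]
    calc A.card * (SS p k m A q).card ≤ A.card * (A.card ^ q * p ^ m) := Nat.mul_le_mul_left _ ih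
      _ = _ := by ring

lemma mem_SS {p : ℕ} (hp : 2 ≤ p) {k m : ℕ} {A : Finset ℕ} (q : ℕ) : ∀ x : X,
    (∀ j : ℕ, D p k ((p ^ j : ℕ) • x) ∈ A) → D p (k * q + m) x ∈ SS p k m A q := by
  induction q with
  | zero =>
    intro x _
    unfold SS
    rw [mem_range, mul_zero, zero_add]
    exact D_lt hp m x
  | succ q ih =>
    intro x h
    unfold SS
    rw [mem_image]
    refine ⟨(D p k x, D p (k * q + m) ((p ^ k : ℕ) • x)), ?_, ?_⟩
    · rw [mem_product]
      refine ⟨?_, ih _ fun j => ?_⟩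
      · have := h 0
        rw [pow_zero, one_smul] at this
        exact this
      · rw [← mul_smul, ← pow_add]
        exact h _
    · simp only
      rw [← D_add]
      congr 1
      ring

/-- the words at the level `β` -/
def TT (p k : ℕ) (A : Finset ℕ) (β : ℕ) : Finset ℕ := SS p k ((2 * β + 2) % k) A ((2 * β + 2) / k)

/-- the bound for their number -/
def MM (p k : ℕ) (A : Finset ℕ) (β : ℕ) : ℕ := A.card ^ ((2 * β + 2) / k) * p ^ k

lemma card_TT {p k : ℕ} (hp : 2 ≤ p) (hk : 1 ≤ k) (A : Finset ℕ) (β : ℕ) :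
    (TT p k A β).card ≤ MM p k A β := by
  unfold TT MM
  refine (card_SS _ _ _ _ _).trans ?_
  apply Nat.mul_le_mul_left
  exact Nat.pow_le_pow_right (by omega) (Nat.mod_lt _ hk).le

lemma mem_TT {p k : ℕ} (hp : 2 ≤ p) {A : Finset ℕ} (β : ℕ) {x : X}
    (h : ∀ j : ℕ, D p k ((p ^ j : ℕ) • x) ∈ A) : D p (2 * β + 2) x ∈ TT p k A β := by
  have h1 := mem_SS hp (m := (2 * β + 2) % k) ((2 * β + 2) / k) x h
  rw [Nat.div_add_mod] at h1
  exact h1

open Classical in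
/-- the number of bad words -/
noncomputable def nb (p k : ℕ) (A : Finset ℕ) (δ : ℝ) (β N h : ℕ) : ℕ :=
  ((TT p k A β).filter fun s => s ∈ BW p δ β N h).card

lemma nb_zero {p : ℕ} (hp : 2 ≤ p) {k : ℕ} {A : Finset ℕ} {δ : ℝ} {β N h : ℕ} (hβ : N ≤ β) :
    nb p k A δ β N h = 0 := by
  unfold nb
  rw [BW_empty hp hβ]
  simp

open Classical in
lemma markov {p : ℕ} (hp : 2 ≤ p) {k : ℕ} (hk : 1 ≤ k) {A : Finset ℕ} (hA : A.Nonempty) {δ : ℝ}
    (hδ : 0 ≤ δ) (β N : ℕ) {P : Set ℕ} {G : ℕ → ℝ} {K : ℝ} {e : ℕ} (hK : 0 ≤ K) (hG : 0 ≤ G N)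
    (hP : BT P G K e) :
    (((range N).filter fun h => h ∈ P ∧ Real.exp (-(δ ^ 2 / 16) * β) * MM p k A β <
      nb p k A δ β N h).card : ℝ) ≤ (4 * K * cP p) * G N *
        (pol p e β * Real.exp (-(δ ^ 2 / 16)) ^ β) := by
  set F := (range N).filter fun h => h ∈ P ∧ Real.exp (-(δ ^ 2 / 16) * β) * MM p k A β <
      nb p k A δ β N h with hF
  have hpol := pol_nonneg hp e β
  have hM : 0 < MM p k A β := by
    unfold MM
    have := hA.card_pos
    positivity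
  have hM' : (0 : ℝ) < MM p k A β := by exact_mod_cast hM
  have hsum : ∑ h ∈ (range N).filter (fun h => h ∈ P), (nb p k A δ β N h : ℝ) ≤
      MM p k A β * (cP p * (4 * K * pol p e β * G N * Real.exp (-(δ ^ 2 / 8) * β))) := by
    have e1 : ∀ h, (nb p k A δ β N h : ℝ) = ∑ s ∈ TT p k A β, if s ∈ BW p δ β N h then (1 : ℝ) else 0 := by
      intro h
      unfold nb
      rw [card_filter]
      push_cast
      rfl
    simp_rw [e1]
    rw [sum_comm]
    have h2 : ∀ s ∈ TT p k A β, (∑ h ∈ (range N).filter (fun h => h ∈ P),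
        if s ∈ BW p δ β N h then (1 : ℝ) else 0) ≤
        cP p * (4 * K * pol p e β * G N * Real.exp (-(δ ^ 2 / 8) * β)) := by
      intro s _
      refine le_trans (le_of_eq ?_) (card_bad hp hδ β N s hK hG hP)
      rw [← filter_filter, card_filter]
      push_cast
      rfl
    refine (sum_le_sum h2).trans ?_
    rw [sum_const, nsmul_eq_mul]
    apply mul_le_mul_of_nonneg_right _ (by positivity)
    exact_mod_cast card_TT hp hk A β
  have h2 : (F.card : ℝ) * (Real.exp (-(δ ^ 2 / 16) * β) * MM p k A β) ≤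
      MM p k A β * (cP p * (4 * K * pol p e β * G N * Real.exp (-(δ ^ 2 / 8) * β))) := by
    refine le_trans ?_ hsum
    rw [← nsmul_eq_mul, ← sum_const]
    refine (sum_le_sum fun h hh => ?_).trans (sum_le_sum_of_subset_of_nonneg
      (t := (range N).filter (fun h => h ∈ P)) (fun h hh => ?_) fun _ _ _ => Nat.cast_nonneg _)
    · exact (mem_filter.1 hh).2.2.le
    · exact mem_filter.2 ⟨(mem_filter.1 hh).1, (mem_filter.1 hh).2.1⟩
  have e1 : Real.exp (-(δ ^ 2 / 8) * β) = Real.exp (-(δ ^ 2 / 16) * β) * Real.exp (-(δ ^ 2 / 16)) ^ β := by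
    rw [← Real.exp_nat_mul, ← Real.exp_add]
    congr 1
    ring
  rw [e1] at h2
  have hpos : 0 < Real.exp (-(δ ^ 2 / 16) * β) * MM p k A β := mul_pos (Real.exp_pos _) hM'
  refine le_of_mul_le_mul_right (h2.trans (le_of_eq ?_)) hpos
  ring

/-- the exceptional multipliers for the bound `N` -/
def Ex (p k : ℕ) (A : Finset ℕ) (δ : ℝ) (β₀ N : ℕ) : Set ℕ :=
  {h | ∃ β, β₀ ≤ β ∧ Real.exp (-(δ ^ 2 / 16) * β) * MM p k A β < nb p k A δ β N h}

lemma not_mem_Ex {p k : ℕ} {A : Finset ℕ} {δ : ℝ} {β₀ N h : ℕ} (hh : h ∉ Ex p k A δ β₀ N) {β : ℕ}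
    (hβ : β₀ ≤ β) : (nb p k A δ β N h : ℝ) ≤ Real.exp (-(δ ^ 2 / 16) * β) * MM p k A β := by
  by_contra hcon
  exact hh ⟨β, hβ, not_le.1 hcon⟩

open Classical in
lemma exc_card_le {p : ℕ} (hp : 2 ≤ p) {k : ℕ} (hk : 1 ≤ k) {B : Finset ℕ} (hB : B.Nonempty) {δ : ℝ}
    {P : Set ℕ} {G : ℕ → ℝ} {K : ℝ} {e : ℕ} (hK : 0 ≤ K) (hG : ∀ N, 0 ≤ G N)
    (hP : BT P G K e) {A : ℝ} (hδ : 0 < δ)
    (hA : ∀ β : ℕ, pol p e β * (Real.exp (-(δ ^ 2 / 32)) ^ 2) ^ β ≤ A * Real.exp (-(δ ^ 2 / 32)) ^ β)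
    (β₀ N : ℕ) : (((range N).filter fun h => h ∈ P ∧ h ∈ Ex p k B δ β₀ N).card : ℝ) ≤
      ((4 * K * cP p * A) *
        (Real.exp (-(δ ^ 2 / 32)) ^ β₀ / (1 - Real.exp (-(δ ^ 2 / 32))))) * G N := by
  set θ := Real.exp (-(δ ^ 2 / 32)) with hθ
  have hθ0 : 0 < θ := Real.exp_pos _
  have hθ1 : θ < 1 := by
    rw [hθ, Real.exp_lt_one_iff]
    have : 0 < δ ^ 2 := by positivity
    linarith
  have hθ2 : Real.exp (-(δ ^ 2 / 16)) = θ ^ 2 := by
    rw [hθ, ← Real.exp_nat_mul]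
    congr 1
    push_cast
    ring
  have hA0 : 0 ≤ A := by
    have h1 := hA 0
    simp only [pow_zero, mul_one] at h1
    exact (pol_nonneg hp e 0).trans h1
  have hsub : (range N).filter (fun h => h ∈ P ∧ h ∈ Ex p k B δ β₀ N) ⊆
      (Finset.Ico β₀ (β₀ + N)).biUnion fun β => (range N).filter fun h => h ∈ P ∧
        Real.exp (-(δ ^ 2 / 16) * β) * MM p k B β < nb p k B δ β N h := by
    intro h hh
    rw [mem_filter] at hh
    obtain ⟨h1, h0, β, h2, h3⟩ := hh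
    rw [mem_biUnion]
    refine ⟨β, ?_, mem_filter.2 ⟨h1, h0, h3⟩⟩
    rw [mem_Ico]
    refine ⟨h2, ?_⟩
    by_contra hcon
    rw [nb_zero hp (show N ≤ β by omega)] at h3
    have : 0 ≤ Real.exp (-(δ ^ 2 / 16) * β) * MM p k B β := by positivity
    rw [Nat.cast_zero] at h3
    linarith
  have h1 : (((range N).filter fun h => h ∈ P ∧ h ∈ Ex p k B δ β₀ N).card : ℝ) ≤
      ∑ β ∈ Finset.Ico β₀ (β₀ + N), (((range N).filter fun h => h ∈ P ∧
        Real.exp (-(δ ^ 2 / 16) * β) * MM p k B β < nb p k B δ β N h).card : ℝ) := by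
    exact_mod_cast (card_le_card hsub).trans card_biUnion_le
  have hGN := hG N
  have hterm : ∀ β ∈ Finset.Ico β₀ (β₀ + N), (((range N).filter fun h => h ∈ P ∧
        Real.exp (-(δ ^ 2 / 16) * β) * MM p k B β < nb p k B δ β N h).card : ℝ) ≤
        (4 * K * cP p) * G N * (A * θ ^ β) := by
    intro β _
    refine (markov hp hk hB hδ.le β N hK hGN hP).trans ?_
    rw [hθ2]
    exact mul_le_mul_of_nonneg_left (hA β) (by positivity)
  refine h1.trans ((sum_le_sum hterm).trans ?_)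
  rw [← mul_sum, ← mul_sum]
  calc (4 * K * cP p) * G N * (A * ∑ β ∈ Finset.Ico β₀ (β₀ + N), θ ^ β) ≤
        (4 * K * cP p) * G N * (A * (θ ^ β₀ / (1 - θ))) := by
        apply mul_le_mul_of_nonneg_left _ (by positivity)
        exact mul_le_mul_of_nonneg_left (geom_tail hθ0 hθ1 β₀ N) hA0
    _ = _ := by ring

/-- the choice of the level -/
structure Level (p k : ℕ) (δ : ℝ) (J β₀ : ℕ) : Prop where
  one : 1 ≤ β₀
  pi : 2 * Real.pi ≤ δ * β₀
  small : ((J : ℝ) * (p : ℝ) ^ k * Real.exp (δ ^ 2 / 32)) *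
    (Real.exp (-(δ ^ 2 / 32)) ^ β₀ / (1 - Real.exp (-(δ ^ 2 / 32)))) ≤ 1 / 4

open Classical in
lemma exc_bound {p : ℕ} (hp : 2 ≤ p) {k : ℕ} (hk : 1 ≤ k) {B : Finset ℕ} (hB : B.Nonempty) {δ : ℝ}
    (hδ : 0 < δ) (J : ℕ) {P : Set ℕ} {G : ℕ → ℝ} {K : ℝ} {e : ℕ} (hG : UR.Reg G) (hK : 0 ≤ K)
    (hP : BT P G K e) {η : ℝ} (hη : 0 < η) : ∃ β₀ : ℕ, Level p k δ J β₀ ∧ ∀ a < J, ∀ N : ℕ,
      (((range N).filter fun h => h ∈ UR.sh P a 0 ∧ h ∈ Ex p k B δ β₀ N).card : ℝ) ≤ η * G N := by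
  have hd : 0 < δ ^ 2 := by positivity
  obtain ⟨A, hA0, hA⟩ := exists_pol hp e (Real.exp_pos (-(δ ^ 2 / 32)))
    (Real.exp_lt_one_iff.2 (by linarith))
  have hsh := fun a : ℕ => UR.bt_sh hG hK hP a 0
  choose K' hK' hP' using hsh
  have e1 : ∀ᶠ b : ℕ in atTop, ∀ a ∈ range J, (4 * K' a * cP p * A) *
      (Real.exp (-(δ ^ 2 / 32)) ^ b / (1 - Real.exp (-(δ ^ 2 / 32)))) ≤ η := by
    rw [eventually_all_finset]
    intro a _
    exact tends (Real.exp_pos (-(δ ^ 2 / 32))) (Real.exp_lt_one_iff.2 (by linarith)) _ hη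
  have e3 := tends (Real.exp_pos (-(δ ^ 2 / 32))) (Real.exp_lt_one_iff.2 (by linarith))
    ((J : ℝ) * (p : ℝ) ^ k * Real.exp (δ ^ 2 / 32)) (by norm_num : (0 : ℝ) < 1 / 4)
  have t2 : Tendsto (fun b : ℕ => δ * (b : ℝ)) atTop atTop :=
    tendsto_natCast_atTop_atTop.const_mul_atTop hδ
  have e4 := t2.eventually_ge_atTop (2 * Real.pi)
  obtain ⟨b, ⟨h1, h3⟩, h4, h5⟩ :=
    ((e1.and e3).and (e4.and (eventually_ge_atTop 1))).exists
  refine ⟨b, ⟨h5, h4, h3⟩, fun a ha N => ?_⟩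
  exact (exc_card_le hp hk hB (hK' a) hG.nonneg (hP' a) hδ hA b N).trans
    (mul_le_mul_of_nonneg_right (h1 a (mem_range.2 ha)) (hG.nonneg N))

end Pool.Agent.TH463.US
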